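import Pool.Agent.Helper21.CD.Coef
import Pool.Agent.Helper21.WC.Asy

/-!
# Asymptotics of the mean number of clusters
-/

namespace Pool.Agent.Helper21.CD

open Finset Filter Topology
open Pool.Agent.Helper21.WC (P P_ratio P_big P_zero P_one P_upper P_lower sg2 sg2_nonneg Ac_nonneg
  Ac_succ Ac_zero hasSum_Ac Flim cb_succ choose_rec)

/-- the correction of the order `1/M²` -/
noncomputable def ec (k : ℕ) : ℝ := (k : ℝ) ^ 2 / 4 - 3 / 4 * sg2 k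

theorem ec_abs {k : ℕ} (hk : 1 ≤ k) : |ec k| ≤ (k : ℝ) ^ 3 / 4 := by
  have hk1 : (1 : ℝ) ≤ k := by exact_mod_cast hk
  obtain ⟨x, hx⟩ : ∃ x : ℝ, (k : ℝ) = x + 1 := ⟨k - 1, by ring⟩
  have hx0 : 0 ≤ x := by linarith
  unfold ec sg2
  rw [abs_le, hx]
  constructor
  · nlinarith [mul_nonneg hx0 hx0, mul_nonneg (mul_nonneg hx0 hx0) hx0]
  · nlinarith [mul_nonneg hx0 hx0, mul_nonneg (mul_nonneg hx0 hx0) hx0]

theorem ec_one : ec 1 = 1 / 4 := by unfold ec sg2; norm_num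

theorem ec_succ (k : ℕ) : ec (k + 1) = ec k - (k : ℝ) ^ 2 + ((k : ℝ) + 1) ^ 2 / 4 := by
  unfold ec sg2
  push_cast
  ring

set_option maxHeartbeats 2000000 in
/-- second order expansion of `2 M P M k` -/
theorem P_second {M : ℕ} (hM : 1 ≤ M) {k : ℕ} (hk : 1 ≤ k) :
    |2 * (M : ℝ) * P M k - WC.Ac k * (1 + ec k / (M : ℝ) ^ 2)| ≤
      WC.Ac k * ((k : ℝ) ^ 6 / (2 * (M : ℝ) ^ 4)) := by
  have hM1 : (1 : ℝ) ≤ M := by exact_mod_cast hM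
  have hM2 : (0 : ℝ) < (M : ℝ) ^ 2 := by positivity
  rcases Nat.lt_or_ge M k with h | h
  · rw [P_big h, mul_zero, zero_sub, abs_neg, abs_mul, abs_of_nonneg (Ac_nonneg k)]
    apply mul_le_mul_of_nonneg_left _ (Ac_nonneg k)
    have hkM : (M : ℝ) + 1 ≤ k := by exact_mod_cast h
    have hk2 : (2 : ℝ) ≤ k := by linarith
    have he := ec_abs hk
    have h1 : |1 + ec k / (M : ℝ) ^ 2| ≤ 1 + (k : ℝ) ^ 3 / 4 / (M : ℝ) ^ 2 := by
      refine (abs_add_le _ _).trans ?_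
      rw [abs_one, abs_div, abs_of_pos hM2]
      have := div_le_div_of_nonneg_right he hM2.le
      linarith
    refine h1.trans ?_
    have hkM2 : (M : ℝ) ^ 2 ≤ (k : ℝ) ^ 2 := by nlinarith
    rw [show 1 + (k : ℝ) ^ 3 / 4 / (M : ℝ) ^ 2 = (4 * (M : ℝ) ^ 4 + (k : ℝ) ^ 3 * (M : ℝ) ^ 2) /
      (4 * (M : ℝ) ^ 4) by field_simp, show (k : ℝ) ^ 6 / (2 * (M : ℝ) ^ 4) =
      (2 * (k : ℝ) ^ 6) / (4 * (M : ℝ) ^ 4) by field_simp; ring]
    apply div_le_div_of_nonneg_right _ (by positivity)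
    -- `M⁴ ≤ k⁴ ≤ k⁶/4`, `k³ M² ≤ k⁵ ≤ k⁶/2`
    have a1 : (M : ℝ) ^ 4 ≤ (k : ℝ) ^ 4 := by nlinarith
    have a2 : (k : ℝ) ^ 3 * (M : ℝ) ^ 2 ≤ (k : ℝ) ^ 5 := by
      have := mul_le_mul_of_nonneg_left hkM2 (show (0 : ℝ) ≤ (k : ℝ) ^ 3 by positivity)
      nlinarith
    have a3 : 4 * (k : ℝ) ^ 4 ≤ (k : ℝ) ^ 6 := by
      have h4 : (4 : ℝ) ≤ (k : ℝ) ^ 2 := by nlinarith
      have := mul_le_mul_of_nonneg_left h4 (show (0 : ℝ) ≤ (k : ℝ) ^ 4 by positivity)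
      nlinarith
    have a4 : 2 * (k : ℝ) ^ 5 ≤ (k : ℝ) ^ 6 := by
      have := mul_le_mul_of_nonneg_left hk2 (show (0 : ℝ) ≤ (k : ℝ) ^ 5 by positivity)
      nlinarith
    have a5 : (0 : ℝ) ≤ (k : ℝ) ^ 6 := by positivity
    linarith
  · induction k, hk using Nat.le_induction with
    | base =>
      rw [P_one hM, ec_one]
      have hx : 0 < 4 * (M : ℝ) ^ 2 - 1 := by nlinarith
      rw [show WC.Ac 1 * (4 * (M : ℝ) ^ 2 / (4 * (M : ℝ) ^ 2 - 1)) - WC.Ac 1 * (1 + 1 / 4 / (M : ℝ) ^ 2) =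
        WC.Ac 1 * (1 / (4 * (M : ℝ) ^ 2 * (4 * (M : ℝ) ^ 2 - 1))) by field_simp; ring]
      rw [abs_mul, abs_of_nonneg (Ac_nonneg 1), abs_of_pos (by positivity)]
      apply mul_le_mul_of_nonneg_left _ (Ac_nonneg 1)
      rw [div_le_div_iff₀ (by positivity) (by positivity)]
      push_cast
      nlinarith [mul_nonneg hM2.le (show (0 : ℝ) ≤ (M : ℝ) ^ 2 - 1 by nlinarith)]
    | succ k hk ih =>
      have ih' := ih (by omega)
      have hk1 : (1 : ℝ) ≤ k := by exact_mod_cast hk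
      have hkM : (k : ℝ) + 1 ≤ M := by exact_mod_cast h
      have hkM2 : ((k : ℝ) + 1) ^ 2 ≤ (M : ℝ) ^ 2 := by nlinarith
      have hden : 0 < 4 * (M : ℝ) ^ 2 - ((k : ℝ) + 1) ^ 2 := by nlinarith
      have hnum : 0 ≤ (M : ℝ) ^ 2 - (k : ℝ) ^ 2 := by nlinarith
      have hr := P_ratio (M := M) hk (by omega)
      set x : ℝ := 1 / (M : ℝ) ^ 2 with hx
      set ρ : ℝ := 4 * ((M : ℝ) ^ 2 - (k : ℝ) ^ 2) / (4 * (M : ℝ) ^ 2 - ((k : ℝ) + 1) ^ 2) with hρ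
      have hρ0 : 0 ≤ ρ := div_nonneg (by linarith) hden.le
      have hρ1 : ρ ≤ 1 := by
        rw [hρ, div_le_one hden]
        nlinarith
      have hc0 : (0 : ℝ) < (2 * k + 1) / (2 * k) := by positivity
      have e1 : 2 * (M : ℝ) * P M (k + 1) = (2 * k + 1) / (2 * k) * (ρ * (2 * (M : ℝ) * P M k)) := by
        have hd := hden.ne'
        have hk0 : (k : ℝ) ≠ 0 := by positivity
        have hh : ρ * (4 * (M : ℝ) ^ 2 - ((k : ℝ) + 1) ^ 2) = 4 * ((M : ℝ) ^ 2 - (k : ℝ) ^ 2) := by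
          rw [hρ, div_mul_cancel₀ _ hd]
        rw [div_mul_eq_mul_div, eq_div_iff (mul_ne_zero two_ne_zero hk0)]
        apply mul_right_cancel₀ hd
        linear_combination 4 * (M : ℝ) * hr - (2 * (k : ℝ) + 1) * (2 * (M : ℝ) * P M k) * hh
      have e2 : ρ * (1 + ec k / (M : ℝ) ^ 2) - (1 + ec (k + 1) / (M : ℝ) ^ 2) =
          (-(ec k * (k : ℝ) ^ 2) + ec (k + 1) * ((k : ℝ) + 1) ^ 2 / 4) * 4 /
            ((M : ℝ) ^ 2 * (4 * (M : ℝ) ^ 2 - ((k : ℝ) + 1) ^ 2)) := by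
        rw [hρ, ec_succ]
        field_simp
        ring
      have e3 : 2 * (M : ℝ) * P M (k + 1) - WC.Ac (k + 1) * (1 + ec (k + 1) / (M : ℝ) ^ 2) =
          (2 * k + 1) / (2 * k) * (ρ * (2 * (M : ℝ) * P M k - WC.Ac k * (1 + ec k / (M : ℝ) ^ 2)) +
            WC.Ac k * (ρ * (1 + ec k / (M : ℝ) ^ 2) - (1 + ec (k + 1) / (M : ℝ) ^ 2))) := by
        rw [e1, Ac_succ hk]
        ring
      have b1 : |-(ec k * (k : ℝ) ^ 2) + ec (k + 1) * ((k : ℝ) + 1) ^ 2 / 4| ≤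
          5 / 16 * ((k : ℝ) + 1) ^ 5 := by
        have g1 := ec_abs hk
        have g2 := ec_abs (show 1 ≤ k + 1 by omega)
        push_cast at g2
        have g3 : |ec k * (k : ℝ) ^ 2| ≤ (k : ℝ) ^ 3 / 4 * (k : ℝ) ^ 2 := by
          rw [abs_mul, abs_of_nonneg (show (0 : ℝ) ≤ (k : ℝ) ^ 2 by positivity)]
          exact mul_le_mul_of_nonneg_right g1 (by positivity)
        have g4 : |ec (k + 1) * ((k : ℝ) + 1) ^ 2 / 4| ≤ ((k : ℝ) + 1) ^ 3 / 4 * ((k : ℝ) + 1) ^ 2 / 4 := by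
          rw [abs_div, abs_mul, abs_of_nonneg (show (0 : ℝ) ≤ ((k : ℝ) + 1) ^ 2 by positivity),
            abs_of_pos (show (0 : ℝ) < 4 by norm_num)]
          exact div_le_div_of_nonneg_right (mul_le_mul_of_nonneg_right g2 (by positivity)) (by norm_num)
        have g5 : (k : ℝ) ^ 5 ≤ ((k : ℝ) + 1) ^ 5 := pow_le_pow_left₀ (by linarith) (by linarith) 5
        refine (abs_add_le _ _).trans ?_
        rw [abs_neg]
        nlinarith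
      have b2 : |ρ * (1 + ec k / (M : ℝ) ^ 2) - (1 + ec (k + 1) / (M : ℝ) ^ 2)| ≤
          5 / 12 * ((k : ℝ) + 1) ^ 5 / (M : ℝ) ^ 4 := by
        rw [e2, abs_div, abs_mul, abs_of_pos (show (0 : ℝ) < 4 by norm_num),
          abs_of_pos (show (0 : ℝ) < (M : ℝ) ^ 2 * (4 * (M : ℝ) ^ 2 - ((k : ℝ) + 1) ^ 2) by positivity)]
        rw [div_le_div_iff₀ (by positivity) (by positivity)]
        have g6 : 3 * (M : ℝ) ^ 4 ≤ (M : ℝ) ^ 2 * (4 * (M : ℝ) ^ 2 - ((k : ℝ) + 1) ^ 2) := by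
          nlinarith
        calc |-(ec k * (k : ℝ) ^ 2) + ec (k + 1) * ((k : ℝ) + 1) ^ 2 / 4| * 4 * (M : ℝ) ^ 4
            ≤ 5 / 16 * ((k : ℝ) + 1) ^ 5 * 4 * (M : ℝ) ^ 4 := by
              apply mul_le_mul_of_nonneg_right _ (by positivity)
              linarith
          _ = 5 / 12 * ((k : ℝ) + 1) ^ 5 * (3 * (M : ℝ) ^ 4) := by ring
          _ ≤ _ := mul_le_mul_of_nonneg_left g6 (by positivity)
      have b3 : |ρ * (2 * (M : ℝ) * P M k - WC.Ac k * (1 + ec k / (M : ℝ) ^ 2)) +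
            WC.Ac k * (ρ * (1 + ec k / (M : ℝ) ^ 2) - (1 + ec (k + 1) / (M : ℝ) ^ 2))| ≤
          WC.Ac k * (((k : ℝ) + 1) ^ 6 / (2 * (M : ℝ) ^ 4)) := by
        refine (abs_add_le _ _).trans ?_
        rw [abs_mul, abs_mul, abs_of_nonneg hρ0, abs_of_nonneg (Ac_nonneg k)]
        have g1 : ρ * |2 * (M : ℝ) * P M k - WC.Ac k * (1 + ec k / (M : ℝ) ^ 2)| ≤
            WC.Ac k * ((k : ℝ) ^ 6 / (2 * (M : ℝ) ^ 4)) :=
          (mul_le_of_le_one_left (abs_nonneg _) hρ1).trans ih'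
        have g2 := mul_le_mul_of_nonneg_left b2 (Ac_nonneg k)
        have g3 : (k : ℝ) ^ 6 / (2 * (M : ℝ) ^ 4) + 5 / 12 * ((k : ℝ) + 1) ^ 5 / (M : ℝ) ^ 4 ≤
            ((k : ℝ) + 1) ^ 6 / (2 * (M : ℝ) ^ 4) := by
          have g4 : (k : ℝ) ^ 6 + 5 / 6 * ((k : ℝ) + 1) ^ 5 ≤ ((k : ℝ) + 1) ^ 6 := by
            have g5 : (k : ℝ) ^ 5 ≤ ((k : ℝ) + 1) ^ 5 := pow_le_pow_left₀ (by linarith) (by linarith) 5
            have g6 : 0 ≤ ((k : ℝ) + 1) ^ 5 := by positivity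
            nlinarith [mul_le_mul_of_nonneg_left g5 (show (0 : ℝ) ≤ k by linarith)]
          rw [show (k : ℝ) ^ 6 / (2 * (M : ℝ) ^ 4) + 5 / 12 * ((k : ℝ) + 1) ^ 5 / (M : ℝ) ^ 4 =
            ((k : ℝ) ^ 6 + 5 / 6 * ((k : ℝ) + 1) ^ 5) / (2 * (M : ℝ) ^ 4) by field_simp; ring]
          exact div_le_div_of_nonneg_right g4 (by positivity)
        have g7 := mul_le_mul_of_nonneg_left g3 (Ac_nonneg k)
        rw [mul_add] at g7
        linarith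
      have b4 := mul_le_mul_of_nonneg_left b3 hc0.le
      have e5 : WC.Ac (k + 1) * (((k + 1 : ℕ) : ℝ) ^ 6 / (2 * (M : ℝ) ^ 4)) =
          (2 * (k : ℝ) + 1) / (2 * k) * (WC.Ac k * (((k : ℝ) + 1) ^ 6 / (2 * (M : ℝ) ^ 4))) := by
        rw [Ac_succ hk, Nat.cast_add, Nat.cast_one, mul_comm (WC.Ac k), mul_assoc]
      rw [e3, abs_mul, abs_of_pos hc0, e5]
      exact b4

theorem P_first {M : ℕ} (hM : 1 ≤ M) {k : ℕ} (hk : 1 ≤ k) :
    |2 * (M : ℝ) * P M k - WC.Ac k| ≤ WC.Ac k * ((k : ℝ) ^ 3 / (3 * (M : ℝ) ^ 2)) := by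
  have hM1 : (1 : ℝ) ≤ M := by exact_mod_cast hM
  have hk1 : (1 : ℝ) ≤ k := by exact_mod_cast hk
  have hM2 : (0 : ℝ) < (M : ℝ) ^ 2 := by positivity
  have h1 := P_upper hM hk
  have h2 := P_lower hM hk
  have hA := Ac_nonneg k
  have hx : 0 < 4 * (M : ℝ) ^ 2 - 1 := by nlinarith
  rw [abs_le]
  constructor
  · have h3 : sg2 k / (M : ℝ) ^ 2 ≤ (k : ℝ) ^ 3 / (3 * (M : ℝ) ^ 2) := by
      rw [div_le_div_iff₀ hM2 (by positivity)]
      have : 3 * sg2 k ≤ (k : ℝ) ^ 3 := by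
        unfold sg2
        nlinarith [mul_nonneg (show (0 : ℝ) ≤ k by linarith) (show (0 : ℝ) ≤ (k : ℝ) - 1 by linarith)]
      nlinarith
    have h4 := mul_le_mul_of_nonneg_left h3 hA
    linarith
  · have h3 : 4 * (M : ℝ) ^ 2 / (4 * (M : ℝ) ^ 2 - 1) - 1 ≤ (k : ℝ) ^ 3 / (3 * (M : ℝ) ^ 2) := by
      have e : 4 * (M : ℝ) ^ 2 / (4 * (M : ℝ) ^ 2 - 1) - 1 = 1 / (4 * (M : ℝ) ^ 2 - 1) := by
        field_simp
        ring
      rw [e, div_le_div_iff₀ hx (by positivity)]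
      have h5 : 1 ≤ (k : ℝ) ^ 3 := one_le_pow₀ hk1
      nlinarith
    have h4 := mul_le_mul_of_nonneg_left h3 hA
    linarith

/-- the coefficients with their first two terms -/
theorem Q_asymp {M : ℕ} (hM : 1 ≤ M) {k : ℕ} (hk : 1 ≤ k) :
    |Q M k - M * (WC.Ac k / (2 * k * (k + 1) * (2 * k - 1))) - 5 / (16 * M) * WC.Ac k| ≤
      WC.Ac k * (k : ℝ) ^ 3 / (4 * (M : ℝ) ^ 3) := by
  have hM1 : (1 : ℝ) ≤ M := by exact_mod_cast hM
  have hk1 : (1 : ℝ) ≤ k := by exact_mod_cast hk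
  have hM2 : (0 : ℝ) < (M : ℝ) ^ 2 := by positivity
  have hk2 : 0 < 2 * (k : ℝ) - 1 := by linarith
  have h1 := P_second hM hk
  have h2 := P_first hM hk
  have hA := Ac_nonneg k
  set D : ℝ := k * (k + 1) * (2 * k - 1) with hD
  have hD0 : 0 < D := by positivity
  set δ : ℝ := 2 * (M : ℝ) * P M k - WC.Ac k * (1 + ec k / (M : ℝ) ^ 2) with hδ
  have e1 : (Q M k - M * (WC.Ac k / (2 * k * (k + 1) * (2 * k - 1))) - 5 / (16 * M) * WC.Ac k) *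
      (4 * M * D) = 2 * (M : ℝ) ^ 2 * δ +
      (2 * (M : ℝ) * P M k - WC.Ac k) * (3 * (k : ℝ) ^ 3 - k) := by
    rw [hδ, hD]
    unfold Q ec sg2
    field_simp
    ring
  have e2 : |2 * (M : ℝ) ^ 2 * δ + (2 * (M : ℝ) * P M k - WC.Ac k) * (3 * (k : ℝ) ^ 3 - k)| ≤
      2 * WC.Ac k * (k : ℝ) ^ 6 / (M : ℝ) ^ 2 := by
    have h3 : 0 ≤ 3 * (k : ℝ) ^ 3 - k := by nlinarith [mul_nonneg (show (0:ℝ) ≤ k by linarith) (show (0:ℝ) ≤ (k:ℝ)^2 - 1 by nlinarith)]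
    have h4 : |2 * (M : ℝ) ^ 2 * δ| ≤ 2 * (M : ℝ) ^ 2 * (WC.Ac k * ((k : ℝ) ^ 6 / (2 * (M : ℝ) ^ 4))) := by
      rw [abs_mul, abs_of_pos (by positivity)]
      exact mul_le_mul_of_nonneg_left h1 (by positivity)
    have h5 : |(2 * (M : ℝ) * P M k - WC.Ac k) * (3 * (k : ℝ) ^ 3 - k)| ≤
        WC.Ac k * ((k : ℝ) ^ 3 / (3 * (M : ℝ) ^ 2)) * (3 * (k : ℝ) ^ 3) := by
      rw [abs_mul, abs_of_nonneg h3]
      exact mul_le_mul h2 (by linarith) h3 (by positivity)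
    refine (abs_add_le _ _).trans ((add_le_add h4 h5).trans (le_of_eq ?_))
    field_simp
    ring
  have e3 : 2 * (k : ℝ) ^ 3 ≤ D := by
    rw [hD]
    nlinarith
  have hpos : 0 < 4 * (M : ℝ) * D := by positivity
  have e4 : |Q M k - M * (WC.Ac k / (2 * k * (k + 1) * (2 * k - 1))) - 5 / (16 * M) * WC.Ac k| *
      (4 * M * D) ≤ 2 * WC.Ac k * (k : ℝ) ^ 6 / (M : ℝ) ^ 2 := by
    have e6 := abs_mul (Q M k - M * (WC.Ac k / (2 * k * (k + 1) * (2 * k - 1))) -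
      5 / (16 * M) * WC.Ac k) (4 * (M : ℝ) * D)
    rw [abs_of_pos hpos] at e6
    rw [← e6, e1]
    exact e2
  rw [← mul_le_mul_iff_of_pos_right hpos]
  refine e4.trans ?_
  rw [show WC.Ac k * (k : ℝ) ^ 3 / (4 * (M : ℝ) ^ 3) * (4 * M * D) =
    WC.Ac k * (k : ℝ) ^ 3 * D / (M : ℝ) ^ 2 by field_simp]
  apply div_le_div_of_nonneg_right _ hM2.le
  have := mul_le_mul_of_nonneg_left e3 (show 0 ≤ WC.Ac k * (k : ℝ) ^ 3 by positivity)
  nlinarith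

end Pool.Agent.Helper21.CD
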