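import Pool.Agent.Helper21.CD.Count

/-!
# The coefficients in closed form
-/

namespace Pool.Agent.Helper21.CD

open Pool.Agent.Helper21.EV Pool.Agent.Helper21.WC

/-- the mean number of the boundary clusters with exactly `k` boundary sites of one parity in a half
cylinder with `2M` boundary sites -/
noncomputable def Q (M k : ℕ) : ℝ :=
  P M k * (2 * (M : ℝ) ^ 2 + 3 * (k : ℝ) ^ 3 - k) / (2 * k * (k + 1) * (2 * k - 1))

theorem tl_cb {n k : ℕ} (h1 : 1 ≤ k) (hk : k ≤ n) :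
    H731B.tl n k = (k.centralBinom : ℝ) * (3 * k - 1) / (2 * (2 * k - 1)) *
      (((n + k - 1).factorial : ℝ) * (2 * n - k).factorial) /
        (((n - k).factorial : ℝ) * (2 * n + k - 1).factorial) := by
  rw [H731B.tl_closed h1 hk, Nat.centralBinom]

theorem ql_eq {M k : ℕ} (h1 : 1 ≤ k) (h2 : k ≤ M) : (M : ℝ) / k * ql M k = Q M k := by
  have hk1 : (1 : ℝ) ≤ k := by exact_mod_cast h1
  have g1 : (2 * (k : ℝ) - 1) ≠ 0 := by
    have : 0 < 2 * (k : ℝ) - 1 := by linarith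
    exact this.ne'
  have g2 : (k : ℝ) ≠ 0 := by positivity
  have g3 : (k : ℝ) + 1 ≠ 0 := by positivity
  rcases Nat.eq_or_lt_of_le h2 with h | h
  · subst h
    unfold ql Q P
    rw [if_pos le_rfl, H731B.tl_gt (Nat.lt_succ_self k), sub_zero, tl_cb h1 le_rfl]
    obtain ⟨d, rfl⟩ : ∃ d, k = d + 1 := ⟨k - 1, by omega⟩
    rw [show d + 1 - (d + 1) = 0 by omega, show 2 * (d + 1) - (d + 1) = d + 1 by omega,
      show 2 * (d + 1) + (d + 1) - 1 = 3 * d + 2 by omega,
      show 2 * (d + 1) + (d + 1) = (3 * d + 2) + 1 by omega,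
      show d + 1 - 1 = d by omega, fac_succ (3 * d + 2), fac_succ d]
    have f2 : ((3 * d + 2).factorial : ℝ) ≠ 0 := by positivity
    have f3 : (((3 * d + 2 : ℕ) : ℝ) + 1) ≠ 0 := by positivity
    rw [Nat.factorial_zero]
    have e1 : 2 * ((d + 1 : ℕ) : ℝ) - 1 = 2 * d + 1 := by push_cast; ring
    rw [e1]
    have f4 : (2 * (d : ℝ) + 1) ≠ 0 := by positivity
    have f5 : ((d : ℝ) + 1) ≠ 0 := by positivity
    have f6 : ((d : ℝ) + 1 + 1) ≠ 0 := by positivity
    push_cast at f3 ⊢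
    field_simp
    ring
  · obtain ⟨d, rfl⟩ : ∃ d, M = k + 1 + d := ⟨M - k - 1, by omega⟩
    unfold ql Q P
    rw [if_pos (by omega), tl_cb h1 (by omega), tl_cb (by omega) (by omega)]
    rw [show k + 1 + d + k - 1 = 2 * k + d by omega,
      show 2 * (k + 1 + d) - k = (k + 2 * d + 1) + 1 by omega,
      show k + 1 + d - k = d + 1 by omega,
      show 2 * (k + 1 + d) + k - 1 = 3 * k + 1 + 2 * d by omega,
      show k + 1 + d + (k + 1) - 1 = (2 * k + d) + 1 by omega,
      show 2 * (k + 1 + d) - (k + 1) = k + 2 * d + 1 by omega,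
      show k + 1 + d - (k + 1) = d by omega,
      show 2 * (k + 1 + d) + (k + 1) - 1 = (3 * k + 1 + 2 * d) + 1 by omega,
      show 2 * (k + 1 + d) + k = (3 * k + 1 + 2 * d) + 1 by omega,
      show k + 2 * d + 1 + 1 - 1 = k + 2 * d + 1 by omega]
    rw [fac_succ (k + 2 * d + 1), fac_succ d, fac_succ (2 * k + d), fac_succ (3 * k + 1 + 2 * d)]
    have hc := cb_succ k
    have hc' : ((k + 1).centralBinom : ℝ) = 2 * (2 * k + 1) * k.centralBinom / (k + 1) := by
      rw [← hc]; field_simp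
    rw [hc']
    have f1 : ((2 * k + d).factorial : ℝ) ≠ 0 := by positivity
    have f2 : ((k + 2 * d + 1).factorial : ℝ) ≠ 0 := by positivity
    have f3 : ((3 * k + 1 + 2 * d).factorial : ℝ) ≠ 0 := by positivity
    have f4 : ((d).factorial : ℝ) ≠ 0 := by positivity
    have g4 : ((3 * k + 1 + 2 * d : ℕ) : ℝ) + 1 ≠ 0 := by positivity
    have g5 : (d : ℝ) + 1 ≠ 0 := by positivity
    have e2 : 2 * ((k + 1 : ℕ) : ℝ) - 1 = 2 * k + 1 := by push_cast; ring
    rw [e2]
    obtain ⟨e, rfl⟩ : ∃ e, k = e + 1 := ⟨k - 1, by omega⟩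
    have e1 : 2 * ((e + 1 : ℕ) : ℝ) - 1 = 2 * e + 1 := by push_cast; ring
    rw [e1]
    have f7 : (2 * (e : ℝ) + 1) ≠ 0 := by positivity
    have f8 : ((e : ℝ) + 1) ≠ 0 := by positivity
    have f9 : ((e : ℝ) + 1 + 1) ≠ 0 := by positivity
    have f10 : (2 * ((e : ℝ) + 1) + 1) ≠ 0 := by positivity
    push_cast at g4 ⊢
    field_simp
    ring

theorem ql_big {M k : ℕ} (h : M < k) : ql M k = 0 := by
  unfold ql
  rw [H731B.tl_gt h, H731B.tl_gt (by omega), sub_zero]

theorem Q_big {M k : ℕ} (h : M < k) : Q M k = 0 := by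
  unfold Q
  rw [P_big h]
  ring

theorem Q_zero (M : ℕ) : Q M 0 = 0 := by
  unfold Q
  rw [P_zero]
  ring

/-- the mean number of clusters with highest level `t`, as a function of `p (1-p)` -/
noncomputable def gM (M : ℕ) (u : ℝ) : ℝ := ∑ k ∈ Finset.range (M + 1), Q M k * u ^ k

open MeasureTheory in
theorem tops_gM {n : ℕ} {ε : ℝ} {p : ℤ → unitInterval} (hp : EV.Ell ε p) (t ρ : ℤ) :
    ∫ ω, (tops ω t ρ : ℝ) ∂(coins (2 * n + 1) p) = gM (n + 1) ((p t : ℝ) * (1 - p t)) := by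
  rw [tops_mean hp t ρ]
  unfold gM
  have h1 : ∀ k ∈ Finset.Icc 1 (2 * n + 1 + 1), ((n : ℝ) + 1) / k * ql (n + 1) k *
        ((p t : ℝ) * (1 - p t)) ^ k = Q (n + 1) k * ((p t : ℝ) * (1 - p t)) ^ k := by
    intro k hk
    rw [Finset.mem_Icc] at hk
    rcases Nat.lt_or_ge (n + 1) k with h | h
    · rw [ql_big h, Q_big h]; ring
    · have := ql_eq hk.1 h
      push_cast at this
      rw [this]
  rw [Finset.sum_congr rfl h1]
  symm
  have h2 : ∑ k ∈ Finset.range (n + 1 + 1), Q (n + 1) k * ((p t : ℝ) * (1 - p t)) ^ k =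
      ∑ k ∈ Finset.range (2 * n + 1 + 1 + 1), Q (n + 1) k * ((p t : ℝ) * (1 - p t)) ^ k := by
    apply Finset.sum_subset (Finset.range_subset_range.2 (by omega))
    intro k _ hk
    rw [Finset.mem_range, not_lt] at hk
    rw [Q_big (by omega)]
    ring
  rw [h2]
  symm
  apply Finset.sum_subset
  · intro k hk
    rw [Finset.mem_Icc] at hk
    rw [Finset.mem_range]
    omega
  · intro k hk hk'
    rw [Finset.mem_range] at hk
    rw [Finset.mem_Icc] at hk'
    have : k = 0 := by omega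
    rw [this, Q_zero]
    ring

end Pool.Agent.Helper21.CD
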