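import Pool.Agent.Helper21.CD.Val

/-!
# The mean number of clusters with a given highest level
-/

namespace Pool.Agent.Helper21.CD

open MeasureTheory ProbabilityTheory Filter Topology Relation
open Pool.Agent.Helper21.EV Pool.Agent.Helper21.WC

variable {m : ℕ}

theorem link_par {ω : Fin (m + 1) × ℤ → Bool} {a b : ℤ × ℤ} (h : EqvGen (Link ω) a b) :
    (a.1 + a.2 - (b.1 + b.2)) % 2 = 0 := by
  induction h with
  | rel x y h =>
    cases h with
    | ur j t h => show (j + t - (j + 1 + (t + 1))) % 2 = 0; omega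
    | ul j t h => show (j + 1 + t - (j + (t + 1))) % 2 = 0; omega
  | refl x => simp
  | symm x y _ ih => omega
  | trans x y z _ _ ih1 ih2 => omega

theorem cluster_eq {ω : Fin (m + 1) × ℤ → Bool} {a b : Fin (m + 1) × ℤ} (h : b ∈ cluster ω a) :
    cluster ω b = cluster ω a := by
  have h' : EqvGen (Join ω) a b := h
  ext c
  exact ⟨fun hc => h'.trans _ _ _ hc, fun hc => h'.symm.trans _ _ _ hc⟩

theorem self_mem (ω : Fin (m + 1) × ℤ → Bool) (a : Fin (m + 1) × ℤ) : a ∈ cluster ω a :=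
  EqvGen.refl _

theorem Tr_par (hev : m % 2 = 1) {ω : Fin (m + 1) × ℤ → Bool} {j i : Fin (m + 1)} {t : ℤ}
    (h : i ∈ Tr ω (j.val : ℤ) t) : ((j.val : ℤ) - i.val) % 2 = 0 := by
  rw [mem_Tr] at h
  obtain ⟨k, hk⟩ := h
  have h1 := link_par hk
  simp only at h1
  have h4 : (k * ((m : ℤ) + 1)) % 2 = 0 := by
    obtain ⟨r, hr⟩ : ∃ r : ℕ, m + 1 = 2 * r := ⟨(m + 1) / 2, by omega⟩
    have : (m : ℤ) + 1 = 2 * r := by exact_mod_cast hr
    rw [this, show k * (2 * (r : ℤ)) = 2 * (k * r) by ring]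
    exact Int.mul_emod_right _ _
  omega

theorem topC_val {ω : Fin (m + 1) × ℤ → Bool} {j : Fin (m + 1)} {t : ℤ} :
    (∀ b ∈ cluster ω (j, t), b.2 ≤ t) ↔ TopC ω (j.val : ℤ) t := by
  have h := topC_cluster (ω := ω) (a := (j.val : ℤ)) (t := t)
  rw [col_val] at h
  exact h

theorem Tr_val {ω : Fin (m + 1) × ℤ → Bool} {j i : Fin (m + 1)} {t : ℤ} :
    i ∈ Tr ω (j.val : ℤ) t ↔ (i, t) ∈ cluster ω (j, t) := by
  show (i, t) ∈ cluster ω (col m (j.val : ℤ), t) ↔ _
  rw [col_val]

open Classical in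
/-- the count as a sum over sites -/
theorem tops_eq (hev : m % 2 = 1) (ω : Fin (m + 1) × ℤ → Bool) (t ρ : ℤ) :
    (tops ω t ρ : ℝ) = ∑ j ∈ Finset.univ.filter (fun j : Fin (m + 1) => Even ((j.val : ℤ) + t + ρ)),
      ∑ k ∈ Finset.Icc 1 (m + 1), (1 / (k : ℝ)) *
        (Ev m (j.val : ℤ) t k).indicator (fun _ => (1 : ℝ)) ω := by
  classical
  set U : Finset (Fin (m + 1)) :=
    Finset.univ.filter (fun j : Fin (m + 1) => Even ((j.val : ℤ) + t + ρ)) with hU
  set J : Finset (Fin (m + 1)) := U.filter (fun j => TopC ω (j.val : ℤ) t) with hJ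
  set f : Fin (m + 1) → Set (Fin (m + 1) × ℤ) := fun j => cluster ω (j, t) with hf
  have hcount : tops ω t ρ = (J.image f).card := by
    unfold tops
    rw [← Set.ncard_coe_finset]
    congr 1
    ext C
    simp only [Set.mem_ofPred_eq, Finset.coe_image, Set.mem_image, Finset.mem_coe, hJ, hU,
      Finset.mem_filter, Finset.mem_univ, true_and]
    constructor
    · rintro ⟨j, h1, rfl, h3⟩
      exact ⟨j, ⟨h1, topC_val.1 h3⟩, rfl⟩
    · rintro ⟨j, ⟨h1, h3⟩, rfl⟩
      exact ⟨j, h1, rfl, topC_val.2 h3⟩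
  have hfib : ∀ j ∈ J, (J.filter (fun i => f i = f j)).card = (Tr ω (j.val : ℤ) t).ncard := by
    intro j hj
    rw [← Set.ncard_coe_finset]
    congr 1
    ext i
    rw [Finset.coe_filter, Set.mem_ofPred_eq, Tr_val]
    constructor
    · rintro ⟨-, h2⟩
      have h3 : (i, t) ∈ cluster ω (i, t) := self_mem ω _
      have h4 : cluster ω (i, t) = cluster ω (j, t) := h2
      rw [h4] at h3
      exact h3
    · intro h
      refine ⟨?_, cluster_eq h⟩
      rw [hJ, hU, Finset.mem_filter, Finset.mem_filter] at hj ⊢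
      obtain ⟨⟨-, h1⟩, h2⟩ := hj
      have h5 := Tr_par hev (Tr_val.2 h)
      refine ⟨⟨Finset.mem_univ _, ?_⟩, ?_⟩
      · rw [Int.even_iff] at h1 ⊢
        omega
      · rw [← topC_val] at h2 ⊢
        rw [cluster_eq h]
        exact h2
  have hpos : ∀ j, 0 < (Tr ω (j : ℤ) t).ncard := by
    intro j
    rw [Set.ncard_pos]
    refine ⟨col m j, ?_⟩
    show (col m j, t) ∈ cluster ω (col m j, t)
    exact self_mem ω _
  have h1 : (tops ω t ρ : ℝ) = ∑ j ∈ J, 1 / ((Tr ω (j.val : ℤ) t).ncard : ℝ) := by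
    have h2 := Finset.sum_comp (s := J) (fun C => 1 / ((J.filter (fun i => f i = C)).card : ℝ)) f
    have h3 : ∑ b ∈ J.image f, (J.filter (fun a => f a = b)).card •
        (1 / ((J.filter (fun i => f i = b)).card : ℝ)) = ((J.image f).card : ℝ) := by
      rw [Finset.card_eq_sum_ones]
      push_cast
      refine Finset.sum_congr rfl fun b hb => ?_
      obtain ⟨j, hj, rfl⟩ := Finset.mem_image.1 hb
      rw [nsmul_eq_mul, hfib j hj]
      have := hpos (j.val : ℤ)
      have h4 : ((Tr ω (j.val : ℤ) t).ncard : ℝ) ≠ 0 := by positivity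
      field_simp
    rw [h3] at h2
    rw [hcount, ← h2]
    refine Finset.sum_congr rfl fun j hj => ?_
    rw [hfib j hj]
  rw [h1, hJ, Finset.sum_filter]
  refine Finset.sum_congr rfl fun j _ => ?_
  by_cases h : TopC ω (j.val : ℤ) t
  · rw [if_pos h]
    rw [Finset.sum_eq_single (Tr ω (j.val : ℤ) t).ncard]
    · unfold Set.indicator
      rw [if_pos ⟨h, rfl⟩, mul_one]
    · intro k _ hk
      unfold Set.indicator
      rw [if_neg (fun h' => hk h'.2.symm), mul_zero]
    · intro h2
      exfalso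
      apply h2
      rw [Finset.mem_Icc]
      refine ⟨hpos _, ?_⟩
      refine (Set.ncard_le_card _).trans ?_
      simp
  · rw [if_neg h]
    symm
    refine Finset.sum_eq_zero fun k _ => ?_
    unfold Set.indicator
    rw [if_neg (fun h' => h h'.1), mul_zero]

theorem half_card (n : ℕ) (c : ℤ) :
    (Finset.univ.filter (fun j : Fin (2 * n + 1 + 1) => Even ((j.val : ℤ) + c))).card = n + 1 := by
  have h : ∀ n : ℕ, ((Finset.range (2 * n + 1 + 1)).filter (fun j : ℕ => Even ((j : ℤ) + c))).card =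
      n + 1 := by
    intro n
    induction n with
    | zero =>
      rw [Finset.card_filter, Finset.sum_range_succ, Finset.sum_range_succ]
      rcases Int.even_or_odd c with h | h
      · have h1 : ¬ Even ((1 : ℤ) + c) := by
          rw [Int.not_even_iff_odd]; exact odd_one.add_even h
        simp [h, h1]
      · have h1 : Even ((1 : ℤ) + c) := odd_one.add_odd h
        have h2 : ¬ Even c := Int.not_even_iff_odd.2 h
        simp [h1, h2]
    | succ n ih =>
      rw [Finset.card_filter] at ih ⊢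
      rw [show 2 * (n + 1) + 1 + 1 = 2 * n + 1 + 1 + 1 + 1 by ring, Finset.sum_range_succ,
        Finset.sum_range_succ, ih]
      rcases Int.even_or_odd (((2 * n + 1 + 1 : ℕ) : ℤ) + c) with h | h
      · have h1 : ¬ Even (((2 * n + 1 + 1 + 1 : ℕ) : ℤ) + c) := by
          rw [Int.even_iff] at h ⊢
          push_cast at h ⊢
          omega
        rw [if_pos h, if_neg h1]
      · have h1 : Even (((2 * n + 1 + 1 + 1 : ℕ) : ℤ) + c) := by
          rw [Int.odd_iff] at h
          rw [Int.even_iff]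
          push_cast at h ⊢
          omega
        rw [if_pos h1, if_neg (Int.not_even_iff_odd.2 h)]
  rw [Finset.card_filter]
  have h2 := Fin.sum_univ_eq_sum_range (fun j : ℕ => if Even ((j : ℤ) + c) then 1 else 0)
    (2 * n + 1 + 1)
  rw [h2, ← Finset.card_filter]
  exact h n

/-- **the mean number of clusters with highest level `t`** -/
theorem tops_mean {n : ℕ} {ε : ℝ} {p : ℤ → unitInterval} (hp : Ell ε p) (t ρ : ℤ) :
    ∫ ω, (tops ω t ρ : ℝ) ∂(coins (2 * n + 1) p) =
      ∑ k ∈ Finset.Icc 1 (2 * n + 1 + 1), ((n : ℝ) + 1) / k * ql (n + 1) k *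
        ((p t : ℝ) * (1 - p t)) ^ k := by
  classical
  have hi : ∀ (j : Fin (2 * n + 1 + 1)) (k : ℕ), Integrable (fun ω => (1 / (k : ℝ)) *
      (Ev (2 * n + 1) (j.val : ℤ) t k).indicator (fun _ => (1 : ℝ)) ω) (coins (2 * n + 1) p) :=
    fun j k => ((integrable_const (1 : ℝ)).indicator (measurableSet_Ev _ t k)).const_mul _
  simp only [tops_eq (show (2 * n + 1) % 2 = 1 by omega)]
  rw [integral_finsetSum _ (fun j _ => integrable_finsetSum _ (fun k _ => hi j k))]
  have e : ∀ j : Fin (2 * n + 1 + 1), ∫ ω, ∑ k ∈ Finset.Icc 1 (2 * n + 1 + 1), (1 / (k : ℝ)) *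
      (Ev (2 * n + 1) (j.val : ℤ) t k).indicator (fun _ => (1 : ℝ)) ω ∂(coins (2 * n + 1) p) =
      ∑ k ∈ Finset.Icc 1 (2 * n + 1 + 1), 1 / (k : ℝ) * (((p t : ℝ) * (1 - p t)) ^ k *
        ql (n + 1) k) := by
    intro j
    rw [integral_finsetSum _ (fun k _ => hi j k)]
    refine Finset.sum_congr rfl fun k _ => ?_
    rw [integral_const_mul]
    congr 1
    have := integral_indicator_one (μ := coins (2 * n + 1) p)
      (measurableSet_Ev (m := 2 * n + 1) (j.val : ℤ) t k)
    rw [Ev_law hp] at this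
    exact this
  rw [Finset.sum_congr rfl fun j _ => e j, Finset.sum_const]
  have hc : (Finset.univ.filter (fun j : Fin (2 * n + 1 + 1) => Even ((j.val : ℤ) + t + ρ))).card
      = n + 1 := by
    have := half_card n (t + ρ)
    simp only [← add_assoc] at this
    exact this
  rw [hc, nsmul_eq_mul, Finset.mul_sum]
  refine Finset.sum_congr rfl fun k _ => ?_
  push_cast
  ring

end Pool.Agent.Helper21.CD
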