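import Pool.Agent.Helper21.EV.Defs

/-!
# Clusters and interfaces of critical percolation on a cylinder
-/

namespace Pool.Agent.Helper21.CD

open Pool.Agent.Helper21.EV

/-- one-step connections on the cylinder, whose sites are the pairs `(j,t)`, `j` modulo `m+1`: in the
state `false` of the square `(j,t)` the diagonal from `(j,t)` to `(j+1,t+1)` is present, in the state
`true` the diagonal from `(j+1,t)` to `(j,t+1)` is present -/
inductive Join {m : ℕ} (ω : Fin (m + 1) × ℤ → Bool) : Fin (m + 1) × ℤ → Fin (m + 1) × ℤ → Prop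
  | ur (j : Fin (m + 1)) (t : ℤ) : ω (j, t) = false → Join ω (j, t) (j + 1, t + 1)
  | ul (j : Fin (m + 1)) (t : ℤ) : ω (j, t) = true → Join ω (j + 1, t) (j, t + 1)

/-- the cluster of a site -/
def cluster {m : ℕ} (ω : Fin (m + 1) × ℤ → Bool) (a : Fin (m + 1) × ℤ) : Set (Fin (m + 1) × ℤ) :=
  {b | Relation.EqvGen (Join ω) a b}

/-- the number of the clusters of the sites `(j,s)` with `j + s` of the parity of `ρ` whose highest
level is `t`. For even `m+1` the sites with `j + s` even are the primal ones, and `tops ω t 0` is the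
number of the open clusters, `tops ω t 1` the number of the dual open clusters, with the highest
level `t`. -/
noncomputable def tops {m : ℕ} (ω : Fin (m + 1) × ℤ → Bool) (t ρ : ℤ) : ℕ :=
  Set.ncard {C : Set (Fin (m + 1) × ℤ) | ∃ j : Fin (m + 1), Even ((j.val : ℤ) + t + ρ) ∧
    C = cluster ω (j, t) ∧ ∀ b ∈ C, b.2 ≤ t}

end Pool.Agent.Helper21.CD
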