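import Pool.Agent.Helper21.CD.LDefs
import Pool.Agent.Helper21.CD.Count
import Pool.Agent.Helper21.WC.Loop

/-!
# Interfaces and clusters with a given highest level
-/

namespace Pool.Agent.Helper21.CD

open MeasureTheory Relation
open Pool.Agent.Helper21.EV Pool.Agent.Helper21.WC

variable {m : ℕ}

/-! ### in the universal cover -/

theorem topC_lev {ω : Fin (m + 1) × ℤ → Bool} {j t : ℤ} :
    TopC ω j t ↔ ∀ e', EqvGen (Step ω) (Med.h j t) e' → lev e' ≤ t := by
  classical
  constructor
  · intro h e' he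
    have h1 := side_eqv (j + t) he
    have e1 : side (j + t) (Med.h j t) = (j, t) := if_pos (by omega)
    rw [e1] at h1
    have h2 := h _ h1
    obtain ⟨i, s⟩ | ⟨i, s⟩ := e'
    · rw [side_v] at h2
      show s ≤ t
      split_ifs at h2 <;> exact h2
    · rw [side_h] at h2
      show s ≤ t
      split_ifs at h2
      · exact h2
      · simp only at h2
        omega
  · intro h b hb
    obtain ⟨H, g1, g2, g3⟩ := height_above h
    by_contra hcon
    push Not at hcon
    have h1 := g2 _ _ hb
    have h2 := g3 b.1 b.2 j (t + 1) hcon (by omega)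
    have h3 := g1 j
    rw [if_pos (EqvGen.refl _)] at h3
    have h4 := sgn_ne j t
    simp only at h1
    apply h4
    linarith

theorem top_same {ω : Fin (m + 1) × ℤ → Bool} {i j t : ℤ} (hi : TopC ω i t) :
    EqvGen (Link ω) (i, t) (j, t) ↔ EqvGen (Step ω) (Med.h i t) (Med.h j t) := by
  classical
  constructor
  · intro h1
    obtain ⟨H, g1, g2, g3⟩ := height_above (topC_lev.1 hi)
    have h2 := g2 _ _ h1
    have h3 := g1 i
    have h4 := g1 j
    have h5 := g3 i (t + 1) j (t + 1) (by omega) (by omega)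
    rw [if_pos (EqvGen.refl _)] at h3
    simp only at h2
    by_contra hcon
    rw [if_neg hcon] at h4
    apply sgn_ne i t
    linarith
  · intro h
    have h1 := side_eqv (i + t) h
    have e1 : side (i + t) (Med.h i t) = (i, t) := if_pos (by omega)
    rw [e1, side_h] at h1
    split_ifs at h1
    · exact h1
    · have := hi _ h1
      simp only at this
      omega

/-! ### on the cylinder -/

/-- the projection of the medial edges of the universal cover -/
def proj (m : ℕ) : Med → Edge m
  | Med.v j t => Edge.v (col m j) t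
  | Med.h j t => Edge.h (col m j) t

theorem proj_level (e : Med) : (proj m e).level = lev e := by
  cases e <;> rfl

theorem follow_of_step {ω : Fin (m + 1) × ℤ → Bool} {a b : Med} (h : Step ω a b) :
    Follow ω (proj m a) (proj m b) := by
  cases h with
  | br j t h =>
    show Follow ω (Edge.v (col m j) t) (Edge.h (col m (j + 1)) t)
    rw [col_inc]
    exact Follow.br _ _ h
  | lt j t h => exact Follow.lt _ _ h
  | bl j t h => exact Follow.bl _ _ h
  | rt j t h =>
    show Follow ω (Edge.h (col m (j + 1)) t) (Edge.v (col m j) (t + 1))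
    rw [col_inc]
    exact Follow.rt _ _ h

theorem proj_v {e : Med} {j : Fin (m + 1)} {t : ℤ} (h : proj m e = Edge.v j t) :
    ∃ a, e = Med.v a t ∧ col m a = j := by
  obtain ⟨a, s⟩ | ⟨a, s⟩ := e
  · have h' : Edge.v (col m a) s = Edge.v j t := h
    injection h' with h1 h2
    exact ⟨a, by rw [h2], h1⟩
  · have h' : Edge.h (col m a) s = Edge.v j t := h
    cases h'

theorem proj_h {e : Med} {j : Fin (m + 1)} {t : ℤ} (h : proj m e = Edge.h j t) :
    ∃ a, e = Med.h a t ∧ col m a = j := by
  obtain ⟨a, s⟩ | ⟨a, s⟩ := e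
  · have h' : Edge.v (col m a) s = Edge.h j t := h
    cases h'
  · have h' : Edge.h (col m a) s = Edge.h j t := h
    injection h' with h1 h2
    exact ⟨a, by rw [h2], h1⟩

theorem col_dec {b : ℤ} {j : Fin (m + 1)} (h : col m b = j + 1) : col m (b - 1) = j := by
  have h3 := col_inc m (b - 1)
  rw [sub_add_cancel, h] at h3
  exact (add_right_cancel h3).symm

theorem follow_lift {ω : Fin (m + 1) × ℤ → Bool} {x y : Edge m} (h : EqvGen (Follow ω) x y) :
    (∀ a, proj m a = x → ∃ b, proj m b = y ∧ EqvGen (Step ω) a b) ∧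
    (∀ b, proj m b = y → ∃ a, proj m a = x ∧ EqvGen (Step ω) b a) := by
  induction h with
  | rel x y h =>
    cases h with
    | br j t h =>
      refine ⟨fun a ha => ?_, fun b hb => ?_⟩
      · obtain ⟨a, rfl, hc⟩ := proj_v ha
        refine ⟨Med.h (a + 1) t, ?_, EqvGen.rel _ _ (Step.br a t (by rw [hc]; exact h))⟩
        show Edge.h (col m (a + 1)) t = _
        rw [col_inc, hc]
      · obtain ⟨b, rfl, hc⟩ := proj_h hb
        have hc' := col_dec hc
        refine ⟨Med.v (b - 1) t, ?_, ?_⟩
        · show Edge.v (col m (b - 1)) t = _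
          rw [hc']
        · have h4 := Step.br (b - 1) t (by rw [hc']; exact h)
          rw [sub_add_cancel] at h4
          exact (EqvGen.rel _ _ h4).symm
    | lt j t h =>
      refine ⟨fun a ha => ?_, fun b hb => ?_⟩
      · obtain ⟨a, rfl, hc⟩ := proj_h ha
        refine ⟨Med.v a (t + 1), ?_, EqvGen.rel _ _ (Step.lt a t (by rw [hc]; exact h))⟩
        show Edge.v (col m a) (t + 1) = _
        rw [hc]
      · obtain ⟨b, rfl, hc⟩ := proj_v hb
        refine ⟨Med.h b t, ?_, (EqvGen.rel _ _ (Step.lt b t (by rw [hc]; exact h))).symm⟩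
        show Edge.h (col m b) t = _
        rw [hc]
    | bl j t h =>
      refine ⟨fun a ha => ?_, fun b hb => ?_⟩
      · obtain ⟨a, rfl, hc⟩ := proj_v ha
        refine ⟨Med.h a t, ?_, EqvGen.rel _ _ (Step.bl a t (by rw [hc]; exact h))⟩
        show Edge.h (col m a) t = _
        rw [hc]
      · obtain ⟨b, rfl, hc⟩ := proj_h hb
        refine ⟨Med.v b t, ?_, (EqvGen.rel _ _ (Step.bl b t (by rw [hc]; exact h))).symm⟩
        show Edge.v (col m b) t = _
        rw [hc]
    | rt j t h =>
      refine ⟨fun a ha => ?_, fun b hb => ?_⟩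
      · obtain ⟨a, rfl, hc⟩ := proj_h ha
        have hc' := col_dec hc
        refine ⟨Med.v (a - 1) (t + 1), ?_, ?_⟩
        · show Edge.v (col m (a - 1)) (t + 1) = _
          rw [hc']
        · have h4 := Step.rt (a - 1) t (by rw [hc']; exact h)
          rw [sub_add_cancel] at h4
          exact EqvGen.rel _ _ h4
      · obtain ⟨b, rfl, hc⟩ := proj_v hb
        refine ⟨Med.h (b + 1) t, ?_, (EqvGen.rel _ _ (Step.rt b t (by rw [hc]; exact h))).symm⟩
        show Edge.h (col m (b + 1)) t = _
        rw [col_inc, hc]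
  | refl x => exact ⟨fun a ha => ⟨a, ha, EqvGen.refl _⟩, fun a ha => ⟨a, ha, EqvGen.refl _⟩⟩
  | symm x y _ ih => exact ⟨ih.2, ih.1⟩
  | trans x y z _ _ ih1 ih2 =>
    refine ⟨fun a ha => ?_, fun c hc => ?_⟩
    · obtain ⟨b, hb, h1⟩ := ih1.1 a ha
      obtain ⟨c, hc, h2⟩ := ih2.1 b hb
      exact ⟨c, hc, h1.trans _ _ _ h2⟩
    · obtain ⟨b, hb, h1⟩ := ih2.2 c hc
      obtain ⟨a, ha, h2⟩ := ih1.2 b hb
      exact ⟨a, ha, h1.trans _ _ _ h2⟩

theorem iface_level {ω : Fin (m + 1) × ℤ → Bool} {j : Fin (m + 1)} {t : ℤ} :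
    (∀ e' ∈ interface ω (Edge.h j t), e'.level ≤ t) ↔ TopC ω (j.val : ℤ) t := by
  have hj : proj m (Med.h (j.val : ℤ) t) = Edge.h j t := by
    show Edge.h (col m (j.val : ℤ)) t = _
    rw [col_val]
  rw [topC_lev]
  constructor
  · intro h e' he
    have h1 : proj m e' ∈ interface ω (Edge.h j t) := by
      rw [← hj]
      exact eqv_map' (proj m) (fun x y h => EqvGen.rel _ _ (follow_of_step h)) he
    have := h _ h1
    rwa [proj_level] at this
  · intro h e' he
    obtain ⟨b, hb, h1⟩ := (follow_lift he).1 _ hj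
    rw [← hb, proj_level]
    exact h _ h1

theorem same_iff {ω : Fin (m + 1) × ℤ → Bool} {i j : Fin (m + 1)} {t : ℤ}
    (hi : TopC ω (i.val : ℤ) t) :
    cluster ω (i, t) = cluster ω (j, t) ↔
      interface ω (Edge.h i t) = interface ω (Edge.h j t) := by
  have e1 : cluster ω (i, t) = cluster ω (j, t) ↔
      ∃ k : ℤ, EqvGen (Link ω) ((i.val : ℤ), t) ((j.val : ℤ) + k * (m + 1), t) := by
    have h := mem_cluster (ω := ω) (a := (i.val : ℤ)) (b := (j.val : ℤ)) (s := t) (t := t)
    rw [col_val, col_val] at h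
    rw [← h]
    constructor
    · intro h'
      rw [h']
      exact self_mem ω _
    · intro h'
      exact (cluster_eq h').symm
  have e2 : interface ω (Edge.h i t) = interface ω (Edge.h j t) ↔
      ∃ k : ℤ, EqvGen (Step ω) (Med.h (i.val : ℤ) t) (Med.h ((j.val : ℤ) + k * (m + 1)) t) := by
    have hp : ∀ i : Fin (m + 1), proj m (Med.h (i.val : ℤ) t) = Edge.h i t := fun i => by
      show Edge.h (col m (i.val : ℤ)) t = _
      rw [col_val]
    constructor
    · intro h'
      have h1 : Edge.h j t ∈ interface ω (Edge.h i t) := by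
        rw [h']
        exact EqvGen.refl _
      obtain ⟨b, hb, h2⟩ := (follow_lift h1).1 _ (hp i)
      obtain ⟨b, rfl, hc⟩ := proj_h hb
      rw [← col_val j] at hc
      obtain ⟨k, hk⟩ := col_eq_iff.1 hc
      refine ⟨k, ?_⟩
      rw [← hk]
      exact h2
    · rintro ⟨k, hk⟩
      have h1 : EqvGen (Follow ω) (proj m (Med.h (i.val : ℤ) t))
          (proj m (Med.h ((j.val : ℤ) + k * (m + 1)) t)) :=
        eqv_map' (proj m) (fun x y h => EqvGen.rel _ _ (follow_of_step h)) hk
      rw [hp] at h1
      have h2 : proj m (Med.h ((j.val : ℤ) + k * (m + 1)) t) = Edge.h j t := by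
        show Edge.h (col m ((j.val : ℤ) + k * (m + 1))) t = _
        rw [col_turn, col_val]
      rw [h2] at h1
      ext c
      exact ⟨fun hc => h1.symm.trans _ _ _ hc, fun hc => h1.trans _ _ _ hc⟩
  rw [e1, e2]
  refine exists_congr fun k => ?_
  exact top_same hi

theorem card_image_le_of_same {α β γ : Type*} [DecidableEq β] [DecidableEq γ] (J : Finset α)
    (f : α → β) (g : α → γ) (h : ∀ i ∈ J, ∀ j ∈ J, g i = g j → f i = f j) :
    (J.image f).card ≤ (J.image g).card := by
  classical
  rcases J.eq_empty_or_nonempty with h0 | ⟨a, ha⟩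
  · subst h0; simp
  · set φ : γ → β := fun c => if hc : ∃ j ∈ J, g j = c then f hc.choose else f a with hφ
    have h1 : J.image f ⊆ (J.image g).image φ := by
      intro b hb
      obtain ⟨j, hj, rfl⟩ := Finset.mem_image.1 hb
      refine Finset.mem_image.2 ⟨g j, Finset.mem_image_of_mem _ hj, ?_⟩
      have hc : ∃ i ∈ J, g i = g j := ⟨j, hj, rfl⟩
      rw [hφ]
      simp only [dif_pos hc]
      exact h _ hc.choose_spec.1 _ hj hc.choose_spec.2
    exact (Finset.card_le_card h1).trans Finset.card_image_le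

open Classical in
theorem loops_image (ω : Fin (m + 1) × ℤ → Bool) (t : ℤ) :
    loops ω t = ((Finset.univ.filter (fun j : Fin (m + 1) => TopC ω (j.val : ℤ) t)).image
      (fun j => interface ω (Edge.h j t))).card := by
  unfold loops
  rw [← Set.ncard_coe_finset]
  congr 1
  ext I
  simp only [Set.mem_ofPred_eq, Finset.coe_image, Set.mem_image, Finset.mem_coe,
    Finset.mem_filter, Finset.mem_univ, true_and]
  constructor
  · rintro ⟨e, h1, rfl, h3⟩
    have key : ∀ j : Fin (m + 1), EqvGen (Follow ω) e (Edge.h j t) →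
        ∃ x : Fin (m + 1), TopC ω (x.val : ℤ) t ∧ interface ω (Edge.h x t) = interface ω e := by
      intro j hj
      have e3 : interface ω (Edge.h j t) = interface ω e := by
        ext c
        exact ⟨fun hc => hj.trans _ _ _ hc, fun hc => hj.symm.trans _ _ _ hc⟩
      refine ⟨j, iface_level.1 ?_, e3⟩
      rw [e3]
      exact h3
    obtain ⟨j, s⟩ | ⟨j, s⟩ := e
    · have hs : s = t := h1
      subst hs
      cases hω : ω (j, s) with
      | false => exact key (j + 1) (EqvGen.rel _ _ (Follow.br j s hω))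
      | true => exact key j (EqvGen.rel _ _ (Follow.bl j s hω))
    · have hs : s = t := h1
      subst hs
      exact key j (EqvGen.refl _)
  · rintro ⟨j, h1, rfl⟩
    exact ⟨Edge.h j t, rfl, rfl, iface_level.2 h1⟩

open Classical in
theorem tops_image (ω : Fin (m + 1) × ℤ → Bool) (t ρ : ℤ) :
    tops ω t ρ = ((Finset.univ.filter (fun j : Fin (m + 1) => Even ((j.val : ℤ) + t + ρ) ∧
      TopC ω (j.val : ℤ) t)).image (fun j => cluster ω (j, t))).card := by
  unfold tops
  rw [← Set.ncard_coe_finset]
  congr 1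
  ext C
  simp only [Set.mem_ofPred_eq, Finset.coe_image, Set.mem_image, Finset.mem_coe,
    Finset.mem_filter, Finset.mem_univ, true_and]
  constructor
  · rintro ⟨j, h1, rfl, h3⟩
    exact ⟨j, ⟨h1, topC_val.1 h3⟩, rfl⟩
  · rintro ⟨j, ⟨h1, h3⟩, rfl⟩
    exact ⟨j, h1, rfl, topC_val.2 h3⟩

/-- **interfaces and clusters** -/
theorem loops_eq (hev : m % 2 = 1) (ω : Fin (m + 1) × ℤ → Bool) (t : ℤ) :
    loops ω t = tops ω t 0 + tops ω t 1 := by
  classical
  set J : Finset (Fin (m + 1)) := Finset.univ.filter (fun j => TopC ω (j.val : ℤ) t) with hJ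
  have h1 : loops ω t = (J.image (fun j => cluster ω (j, t))).card := by
    rw [loops_image]
    apply le_antisymm
    · refine card_image_le_of_same _ _ _ fun i hi j hj h => ?_
      rw [Finset.mem_filter] at hi
      exact (same_iff hi.2).1 h
    · refine card_image_le_of_same _ _ _ fun i hi j hj h => ?_
      rw [Finset.mem_filter] at hi
      exact (same_iff hi.2).2 h
  rw [h1, tops_image, tops_image, ← Finset.card_union_of_disjoint, ← Finset.image_union]
  · congr 2
    ext j
    simp only [hJ, Finset.mem_filter, Finset.mem_univ, true_and, Finset.mem_union]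
    constructor
    · intro h
      rcases Int.even_or_odd ((j.val : ℤ) + t) with h2 | h2
      · exact Or.inl ⟨by rwa [add_zero], h⟩
      · exact Or.inr ⟨h2.add_odd odd_one, h⟩
    · rintro (h | h)
      · exact h.2
      · exact h.2
  · rw [Finset.disjoint_left]
    intro C hC hC'
    obtain ⟨i, hi, rfl⟩ := Finset.mem_image.1 hC
    obtain ⟨j, hj, h2⟩ := Finset.mem_image.1 hC'
    rw [Finset.mem_filter] at hi hj
    have h3 : (i, t) ∈ cluster ω (j, t) := by
      rw [h2]
      exact self_mem ω _
    have h4 := Tr_par hev (Tr_val.2 h3)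
    have h5 := hi.2.1
    have h6 := hj.2.1
    rw [Int.even_iff] at h5 h6
    omega

theorem tops_integrable {n : ℕ} {p : ℤ → unitInterval} (t ρ : ℤ) :
    Integrable (fun ω => (tops ω t ρ : ℝ)) (coins (2 * n + 1) p) := by
  classical
  simp only [tops_eq (show (2 * n + 1) % 2 = 1 by omega)]
  exact integrable_finsetSum _ (fun j _ => integrable_finsetSum _ (fun k _ =>
    ((integrable_const (1 : ℝ)).indicator (measurableSet_Ev _ t k)).const_mul _))

/-- **the mean number of interfaces with highest level `t`** -/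
theorem loops_mean {n : ℕ} {p : ℤ → unitInterval} (t : ℤ) :
    ∫ ω, (loops ω t : ℝ) ∂(coins (2 * n + 1) p) =
      ∫ ω, (tops ω t 0 : ℝ) ∂(coins (2 * n + 1) p) + ∫ ω, (tops ω t 1 : ℝ) ∂(coins (2 * n + 1) p) := by
  rw [← integral_add (tops_integrable t 0) (tops_integrable t 1)]
  congr 1
  funext ω
  rw [loops_eq (by omega)]
  push_cast
  rfl

end Pool.Agent.Helper21.CD
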