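import Pool.Agent.Helper21.CD.Lim
import Pool.Agent.Helper21.CD.Loops
import Pool.Agent.Helper21.WC.Dens

/-!
# The mean number of clusters and interfaces with a given highest level
-/

namespace Pool.Agent.Helper21.CD

open MeasureTheory
open Pool.Agent.Helper21.EV Pool.Agent.Helper21.WC

theorem loops_gM {n : ℕ} {ε : ℝ} {p : ℤ → unitInterval} (hp : EV.Ell ε p) (t : ℤ) :
    ∫ ω, (loops ω t : ℝ) ∂(coins (2 * n + 1) p) = 2 * gM (n + 1) ((p t : ℝ) * (1 - p t)) := by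
  rw [loops_mean, tops_gM hp, tops_gM hp]
  ring

theorem gM_angle {n : ℕ} {p : unitInterval} {θ : ℝ} (h0 : 0 < θ) (h1 : θ < Real.pi)
    (hb : (p : ℝ) = bias θ) :
    |gM (n + 1) ((p : ℝ) * (1 - p)) - ((n : ℝ) + 1) * kap ((p : ℝ) * (1 - p)) -
      5 * √3 / 24 * Real.sin θ / (2 * (n : ℝ) + 2)| ≤ 10 / (2 * (n : ℝ) + 2) ^ 3 := by
  have hb' := bias_eq h0 h1
  rw [← hb] at hb'
  have h2 := Flim_angle (θ := Real.pi - θ) (p := p) (by linarith) (by linarith) p.2.1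
    p.2.2 (by rw [sub_sub_cancel]; exact hb')
  rw [Real.sin_pi_sub] at h2
  have hu0 : 0 ≤ (p : ℝ) * (1 - p) := mul_nonneg p.2.1 (by linarith [p.2.2])
  have hu1 : (p : ℝ) * (1 - p) ≤ 1 / 4 := by nlinarith [sq_nonneg ((p : ℝ) - 1 / 2)]
  have h3 := gM_asymp (M := n + 1) (by omega) hu0 hu1
  rw [h2] at h3
  have hs : √3 * √3 = 3 := Real.mul_self_sqrt (by norm_num)
  have hs0 : √3 ≠ 0 := (Real.sqrt_pos.2 (by norm_num)).ne'
  have e1 : 5 / (16 * ((n + 1 : ℕ) : ℝ)) * (Real.sin θ / √3) =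
      5 * √3 / 24 * Real.sin θ / (2 * (n : ℝ) + 2) := by
    have h4 : Real.sin θ / √3 = Real.sin θ * √3 / 3 := by
      rw [div_eq_div_iff hs0 (by norm_num)]
      linear_combination -Real.sin θ * hs
    rw [h4]
    have h5 : ((n : ℝ) + 1) ≠ 0 := by positivity
    push_cast
    field_simp
    ring
  have e2 : 5 / (4 * (((n + 1 : ℕ) : ℝ)) ^ 3) = 10 / (2 * (n : ℝ) + 2) ^ 3 := by
    have h5 : ((n : ℝ) + 1) ≠ 0 := by positivity
    have h6 : (2 * (n : ℝ) + 2) = 2 * (n + 1) := by ring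
    rw [h6]
    push_cast
    field_simp
    ring
  rw [e1, e2] at h3
  push_cast at h3
  exact h3

end Pool.Agent.Helper21.CD
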