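import Pool.Agent.Helper21.CD.Pat
import Pool.Agent.Helper21.CD.Defs

/-!
# Clusters on the cylinder and in the universal cover, clusters with a given highest level
-/

namespace Pool.Agent.Helper21.CD

open Pool.Agent.H863R2.Cyl Pool.Agent.H863R2.Cyl.Sem1Aux Relation
open Pool.Agent.H988R2.Perc (Word)
open Pool.Agent.Helper21.EV Pool.Agent.Helper21.WC

variable {m : ℕ}

theorem col_one (m : ℕ) : col m 1 = 1 := by
  apply Fin.ext
  show ((1 : ℤ) % (m + 1 : ℤ)).toNat = (1 : Fin (m + 1)).val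
  rw [Fin.val_one']
  have : ((1 : ℤ) % (m + 1 : ℤ)) = ((1 % (m + 1) : ℕ) : ℤ) := by push_cast; rfl
  rw [this, Int.toNat_natCast]

theorem col_inc (m : ℕ) (j : ℤ) : col m (j + 1) = col m j + 1 := by
  rw [← col_add, col_one]

theorem join_of_link {ω : Fin (m + 1) × ℤ → Bool} {a b : ℤ × ℤ} (h : Link ω a b) :
    Join ω (col m a.1, a.2) (col m b.1, b.2) := by
  cases h with
  | ur j t h =>
    show Join ω (col m j, t) (col m (j + 1), t + 1)
    rw [col_inc]
    exact Join.ur _ _ h
  | ul j t h =>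
    show Join ω (col m (j + 1), t) (col m j, t + 1)
    rw [col_inc]
    exact Join.ul _ _ h

theorem join_lift {ω : Fin (m + 1) × ℤ → Bool} {x y : Fin (m + 1) × ℤ} (h : EqvGen (Join ω) x y) :
    (∀ a : ℤ, col m a = x.1 → ∃ b, col m b = y.1 ∧ EqvGen (Link ω) (a, x.2) (b, y.2)) ∧
    (∀ b : ℤ, col m b = y.1 → ∃ a, col m a = x.1 ∧ EqvGen (Link ω) (b, y.2) (a, x.2)) := by
  induction h with
  | rel x y h =>
    cases h with
    | ur j t h =>
      refine ⟨fun a ha => ?_, fun b hb => ?_⟩
      · exact ⟨a + 1, by rw [col_inc, ha], EqvGen.rel _ _ (Link.ur a t (by rw [ha]; exact h))⟩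
      · have hb' : col m b = j + 1 := hb
        have h2 : col m (b - 1) = j := by
          have h3 := col_inc m (b - 1)
          rw [sub_add_cancel, hb'] at h3
          exact (add_right_cancel h3).symm
        refine ⟨b - 1, h2, ?_⟩
        have h4 := Link.ur (b - 1) t (by rw [h2]; exact h)
        rw [sub_add_cancel] at h4
        exact (EqvGen.rel _ _ h4).symm
    | ul j t h =>
      refine ⟨fun a ha => ?_, fun b hb => ?_⟩
      · have ha' : col m a = j + 1 := ha
        have h2 : col m (a - 1) = j := by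
          have h3 := col_inc m (a - 1)
          rw [sub_add_cancel, ha'] at h3
          exact (add_right_cancel h3).symm
        refine ⟨a - 1, h2, ?_⟩
        have h4 := Link.ul (a - 1) t (by rw [h2]; exact h)
        rw [sub_add_cancel] at h4
        exact EqvGen.rel _ _ h4
      · exact ⟨b + 1, by rw [col_inc, hb], (EqvGen.rel _ _ (Link.ul b t (by rw [hb]; exact h))).symm⟩
  | refl x => exact ⟨fun a ha => ⟨a, ha, EqvGen.refl _⟩, fun a ha => ⟨a, ha, EqvGen.refl _⟩⟩
  | symm x y _ ih => exact ⟨ih.2, ih.1⟩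
  | trans x y z _ _ ih1 ih2 =>
    refine ⟨fun a ha => ?_, fun c hc => ?_⟩
    · obtain ⟨b, hb, h1⟩ := ih1.1 a ha
      obtain ⟨c, hc, h2⟩ := ih2.1 b hb
      exact ⟨c, hc, h1.trans _ _ _ h2⟩
    · obtain ⟨b, hb, h1⟩ := ih2.2 c hc
      obtain ⟨a, ha, h2⟩ := ih1.2 b hb
      exact ⟨a, ha, h1.trans _ _ _ h2⟩

theorem mem_cluster {ω : Fin (m + 1) × ℤ → Bool} {a b s t : ℤ} :
    (col m b, s) ∈ cluster ω (col m a, t) ↔
      ∃ k : ℤ, EqvGen (Link ω) (a, t) (b + k * (m + 1), s) := by
  constructor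
  · intro h
    obtain ⟨b', hb, h1⟩ := (join_lift h).1 a rfl
    obtain ⟨k, hk⟩ := col_eq_iff.1 hb
    refine ⟨k, ?_⟩
    rw [← hk]
    exact h1
  · rintro ⟨k, hk⟩
    have h1 := eqv_map' (G' := Join ω) (fun x : ℤ × ℤ => (col m x.1, x.2))
      (fun x y h => EqvGen.rel _ _ (join_of_link h)) hk
    simp only [col_turn] at h1
    exact h1

/-- no site of the cluster of `(a,t)` is above the level `t` -/
def TopC (ω : Fin (m + 1) × ℤ → Bool) (a t : ℤ) : Prop :=
  ∀ b : ℤ × ℤ, EqvGen (Link ω) (a, t) b → b.2 ≤ t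

theorem topC_cluster {ω : Fin (m + 1) × ℤ → Bool} {a t : ℤ} :
    (∀ b ∈ cluster ω (col m a, t), b.2 ≤ t) ↔ TopC ω a t := by
  constructor
  · intro h b hb
    refine h (col m b.1, b.2) (mem_cluster.2 ⟨0, ?_⟩)
    rw [zero_mul, add_zero]
    exact hb
  · rintro h ⟨b, s⟩ hb
    rw [← col_val b, mem_cluster] at hb
    obtain ⟨k, hk⟩ := hb
    exact h _ hk

theorem topC_iff {ω : Fin (m + 1) × ℤ → Bool} {a t : ℤ} :
    TopC ω a t ↔ ∀ i, EqvGen (LinkTo ω t) (a, t) (i, t) →
      ω (col m i, t) = true ∧ ω (col m (i - 1), t) = false := by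
  constructor
  · intro h2 i h3
    constructor
    · cases h4 : ω (col m i, t) with
      | true => rfl
      | false =>
        exfalso
        have h5 := h2 _ ((linkTo_link h3).trans _ _ _ (EqvGen.rel _ _ (Link.ur i t h4)))
        simp only at h5
        omega
    · cases h4 : ω (col m (i - 1), t) with
      | false => rfl
      | true =>
        exfalso
        have h6 := Link.ul (i - 1) t h4
        rw [sub_add_cancel] at h6
        have h5 := h2 _ ((linkTo_link h3).trans _ _ _ (EqvGen.rel _ _ h6))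
        simp only at h5
        omega
  · intro h2
    set S : ℤ × ℤ → Prop := fun x => EqvGen (LinkTo ω t) (a, t) x ∧ x.2 ≤ t with hS
    have hstep : ∀ x y, Link ω x y → (S x ↔ S y) := by
      intro x y h
      have hup : x.2 < y.2 := by
        cases h with
        | ur j t h => simp
        | ul j t h => simp
      constructor
      · rintro ⟨h3, h4⟩
        rcases lt_or_ge t y.2 with h5 | h5
        · exfalso
          cases h with
          | ur i s h =>
            simp only at h4 h5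
            have : s = t := by omega
            subst this
            rw [(h2 i h3).1] at h
            exact absurd h (by simp)
          | ul i s h =>
            simp only at h4 h5
            have : s = t := by omega
            subst this
            have h7 := (h2 _ h3).2
            rw [add_sub_cancel_right, h] at h7
            exact absurd h7 (by simp)
        · exact ⟨h3.trans _ _ _ (EqvGen.rel _ _ ⟨h, h5⟩), h5⟩
      · rintro ⟨h3, h4⟩
        exact ⟨h3.trans _ _ _ (EqvGen.rel _ _ ⟨h, h4⟩).symm, by omega⟩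
    have hall : ∀ x y, EqvGen (Link ω) x y → (S x ↔ S y) := by
      intro x y h
      induction h with
      | rel x y h => exact hstep x y h
      | refl x => rfl
      | symm x y _ ih => exact ih.symm
      | trans x y z _ _ ih1 ih2 => exact ih1.trans ih2
    intro b hb
    exact ((hall _ _ hb).1 ⟨EqvGen.refl _, le_refl _⟩).2

/-- the sites of the level `t` in the cluster of `(a,t)` -/
def Tr (ω : Fin (m + 1) × ℤ → Bool) (a t : ℤ) : Set (Fin (m + 1)) :=
  {i | (i, t) ∈ cluster ω (col m a, t)}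

theorem mem_Tr {ω : Fin (m + 1) × ℤ → Bool} {a t : ℤ} {i : Fin (m + 1)} :
    i ∈ Tr ω a t ↔ ∃ k : ℤ, EqvGen (Link ω) (a, t) ((i.val : ℤ) + k * (m + 1), t) := by
  unfold Tr
  rw [Set.mem_ofPred_eq]
  have h := mem_cluster (ω := ω) (a := a) (b := (i.val : ℤ)) (s := t) (t := t)
  rw [col_val] at h
  exact h

theorem linkTo_iff {ω : Fin (m + 1) × ℤ → Bool} {a t : ℤ} (h : TopC ω a t) (b : ℤ) :
    EqvGen (Link ω) (a, t) (b, t) ↔ EqvGen (LinkTo ω t) (a, t) (b, t) :=
  ⟨fun h1 => link_linkTo h1 h, linkTo_link⟩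

/-- the pattern of a deep slab with an alternating row decides -/
theorem topC_pat {n : ℕ} {ω : Fin (2 * n + 1 + 1) × ℤ → Bool} {t a : ℤ} {M s : ℕ} (h1 : s < M)
    (hl : lowc ω t M s = alt (2 * n + 1)) (σ : Wd (2 * n + 1 + 1)) :
    TopC ω a t ↔ Cz (2 * n + 1) (rows (2 * n + 1) (lowc ω t M) M σ).1 a (fun j => ω (j, t)) := by
  rw [topC_iff]
  constructor
  · rintro h b ⟨k, hk⟩
    rw [← half_iff h1 hl] at hk
    have h2 := h _ hk
    rw [col_turn, show b + k * (((2 * n + 1 : ℕ) : ℤ) + 1) - 1 = b - 1 + k * (((2 * n + 1 : ℕ) : ℤ) + 1) by ring, col_turn] at h2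
    rw [cl_col, cl_col]
    exact h2
  · intro h b hb
    have h2 := h b ⟨0, by rw [zero_mul, add_zero]; exact (half_iff h1 hl σ a b).1 hb⟩
    rw [cl_col, cl_col] at h2
    exact h2

theorem Tr_pat {n : ℕ} {ω : Fin (2 * n + 1 + 1) × ℤ → Bool} {t a : ℤ} {M s : ℕ} (h1 : s < M)
    (hl : lowc ω t M s = alt (2 * n + 1)) (σ : Wd (2 * n + 1 + 1)) (h : TopC ω a t) :
    (Tr ω a t).ncard = (Ac (2 * n + 1) (rows (2 * n + 1) (lowc ω t M) M σ).1 a).card := by
  classical
  have e : Tr ω a t = ((Ac (2 * n + 1) (rows (2 * n + 1) (lowc ω t M) M σ).1 a :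
      Finset (Fin (2 * n + 1 + 1))) : Set (Fin (2 * n + 1 + 1))) := by
    ext i
    rw [mem_Tr]
    unfold Ac
    rw [Finset.coe_filter]
    simp only [Finset.mem_univ, true_and, Set.mem_ofPred_eq]
    unfold Kc
    refine exists_congr fun k => ?_
    rw [linkTo_iff h, half_iff h1 hl σ]
  rw [e, Set.ncard_coe_finset]

end Pool.Agent.Helper21.CD
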