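import Pool.Agent.Helper21.CD.Defs

/-!
# Interfaces of critical percolation on a cylinder
-/

namespace Pool.Agent.Helper21.CD

/-- the medial edges of the cylinder of circumference `m+1`: `v j t` separates the sites `(j,t)` and
`(j+1,t)`, and `h j t` separates the sites `(j,t)` and `(j,t+1)` -/
inductive Edge (m : ℕ) : Type
  | v (j : Fin (m + 1)) (t : ℤ) : Edge m
  | h (j : Fin (m + 1)) (t : ℤ) : Edge m

/-- the level of a medial edge -/
def Edge.level {m : ℕ} : Edge m → ℤ
  | Edge.v _ t => t
  | Edge.h _ t => t

/-- one-step connections of the interfaces on the cylinder. The unit square with the lower left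
corner `(j,t)` has the sides `v j t`, `h (j+1) t`, `v j (t+1)`, `h j t`. The diagonal which is
present separates the other two corners, and an interface goes around each of these. -/
inductive Follow {m : ℕ} (ω : Fin (m + 1) × ℤ → Bool) : Edge m → Edge m → Prop
  | br (j : Fin (m + 1)) (t : ℤ) : ω (j, t) = false → Follow ω (Edge.v j t) (Edge.h (j + 1) t)
  | lt (j : Fin (m + 1)) (t : ℤ) : ω (j, t) = false → Follow ω (Edge.h j t) (Edge.v j (t + 1))
  | bl (j : Fin (m + 1)) (t : ℤ) : ω (j, t) = true → Follow ω (Edge.v j t) (Edge.h j t)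
  | rt (j : Fin (m + 1)) (t : ℤ) : ω (j, t) = true → Follow ω (Edge.h (j + 1) t) (Edge.v j (t + 1))

/-- the interface through the medial edge `e` -/
def interface {m : ℕ} (ω : Fin (m + 1) × ℤ → Bool) (e : Edge m) : Set (Edge m) :=
  {e' | Relation.EqvGen (Follow ω) e e'}

/-- the number of the interfaces on the cylinder whose highest level is `t` -/
noncomputable def loops {m : ℕ} (ω : Fin (m + 1) × ℤ → Bool) (t : ℤ) : ℕ :=
  Set.ncard {I : Set (Edge m) | ∃ e : Edge m, e.level = t ∧ I = interface ω e ∧
    ∀ e' ∈ I, e'.level ≤ t}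

end Pool.Agent.Helper21.CD
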