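import Pool.Agent.Helper21.CD.Asy

/-!
# The limit of the mean number of clusters
-/

namespace Pool.Agent.Helper21.CD

open Finset Filter Topology
open Pool.Agent.Helper21.WC (P P_ratio P_big P_zero P_one P_upper P_lower sg2 sg2_nonneg Ac_nonneg
  Ac_succ Ac_zero hasSum_Ac Flim cb_succ choose_rec)

/-! ### the series of `-√(1-u)` -/

noncomputable def bs (k : ℕ) : ℝ := (k.centralBinom : ℝ) / ((2 * k - 1) * 4 ^ k)

theorem two_sub_ne (k : ℕ) : (2 * (k : ℝ) - 1) ≠ 0 := by
  intro h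
  have h1 : (2 * (k : ℝ)) = 1 := by linarith
  have h2 : 2 * k = 1 := by exact_mod_cast h1
  omega

theorem bs_zero : bs 0 = -1 := by simp [bs]

theorem bs_succ (k : ℕ) : bs (k + 1) = (k.centralBinom : ℝ) / (2 * (k + 1) * 4 ^ k) := by
  unfold bs
  have h := cb_succ k
  have h3 : ((k + 1).centralBinom : ℝ) = 2 * (2 * k + 1) * k.centralBinom / (k + 1) := by
    rw [← h]; field_simp
  have e : (2 * ((k + 1 : ℕ) : ℝ) - 1) = 2 * k + 1 := by push_cast; ring
  rw [h3, e, pow_succ]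
  field_simp
  ring

theorem choose_half (n : ℕ) :
    Ring.choose (1 / 2 : ℝ) n = (-1) ^ n * (-bs n) := by
  induction n with
  | zero => simp [bs_zero]
  | succ n ih =>
    have h1 : ((n : ℝ) + 1) ≠ 0 := by positivity
    apply mul_right_cancel₀ h1
    rw [choose_rec, ih, bs_succ, pow_succ]
    unfold bs
    have h2 := two_sub_ne n
    field_simp
    ring

theorem hasSum_bs {u : ℝ} (h0 : 0 ≤ u) (h1 : u < 1) :
    HasSum (fun n : ℕ => bs n * u ^ n) (-√(1 - u)) := by
  have h := (Real.one_add_rpow_hasFPowerSeriesOnBall_zero (a := (1 / 2 : ℝ))).hasSum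
    (y := -u) (by
      simp only [Metric.mem_eball, edist_zero_right]
      rw [enorm_neg, ← ofReal_norm, Real.norm_eq_abs, abs_of_nonneg h0]
      exact_mod_cast (ENNReal.ofReal_lt_one.2 h1))
  simp only [zero_add] at h
  have e : (fun n : ℕ => (binomialSeries ℝ (1 / 2 : ℝ)) n fun _ => -u) =
      fun n : ℕ => -(bs n * u ^ n) := by
    funext n
    rw [binomialSeries_apply, choose_half]
    simp only [List.ofFn_const, List.prod_replicate, smul_eq_mul]
    have : (-1 : ℝ) ^ n * (-u) ^ n = u ^ n := by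
      rw [← mul_pow]; simp
    calc _ = -(bs n * ((-1 : ℝ) ^ n * (-u) ^ n)) := by ring
      _ = _ := by rw [this]
  rw [e] at h
  have h2 := h.neg
  simp only [neg_neg] at h2
  rw [Real.sqrt_eq_rpow]
  exact h2

/-- the mean number of clusters per face and level in the plane, `s = √(1 - p (1-p))` -/
noncomputable def kap (u : ℝ) : ℝ :=
  (1 - √(1 - u)) * (1 + 2 * √(1 - u)) / (2 * (1 + √(1 - u)))

noncomputable def kc (k : ℕ) : ℝ := WC.Ac k / (2 * k * (k + 1) * (2 * k - 1))

theorem kc_zero : kc 0 = 0 := by unfold kc; rw [Ac_zero, zero_div]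

theorem kc_eq {k : ℕ} (hk : 1 ≤ k) : kc k = bs k - bs (k + 1) := by
  have hk1 : (1 : ℝ) ≤ k := by exact_mod_cast hk
  have hk0 : (k : ℝ) ≠ 0 := by positivity
  have h2 := two_sub_ne k
  rw [bs_succ]
  unfold kc WC.Ac bs
  rw [div_sub_div _ _ (by positivity) (by positivity), div_div, div_eq_div_iff (by positivity)
    (by positivity)]
  ring

theorem hasSum_kc {u : ℝ} (h0 : 0 ≤ u) (h1 : u < 1) :
    HasSum (fun k : ℕ => kc k * u ^ k) (kap u) := by
  have ha := hasSum_bs h0 h1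
  have hs0 : 0 ≤ √(1 - u) := Real.sqrt_nonneg _
  have hs2 : √(1 - u) * √(1 - u) = 1 - u := Real.mul_self_sqrt (by linarith)
  have hb : HasSum (fun k : ℕ => bs (k + 1) * u ^ k) (1 / (1 + √(1 - u))) := by
    rcases eq_or_lt_of_le h0 with h | h
    · rw [← h]
      have e : (1 : ℝ) / (1 + √(1 - 0)) = bs (0 + 1) * 0 ^ 0 := by
        rw [bs_succ]
        norm_num
      rw [e]
      apply hasSum_single
      intro b hb
      rw [zero_pow hb, mul_zero]
    · have h3 : HasSum (fun k : ℕ => bs (k + 1) * u ^ (k + 1)) (-√(1 - u) - ∑ i ∈ range 1, bs i * u ^ i) :=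
        (hasSum_nat_add_iff' 1).2 ha
      simp only [Finset.range_one, Finset.sum_singleton, bs_zero, pow_zero, mul_one] at h3
      have h4 := h3.mul_left (u⁻¹)
      have e1 : (fun k : ℕ => u⁻¹ * (bs (k + 1) * u ^ (k + 1))) = fun k : ℕ => bs (k + 1) * u ^ k := by
        funext k
        rw [pow_succ]
        field_simp
      have e2 : u⁻¹ * (-√(1 - u) - -1) = 1 / (1 + √(1 - u)) := by
        rw [inv_mul_eq_div, div_eq_div_iff h.ne' (by linarith)]
        linear_combination -hs2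
      rw [e1, e2] at h4
      exact h4
  have hc : HasSum (fun k : ℕ => if k = 0 then (3 / 2 : ℝ) else 0) (3 / 2) := hasSum_ite_eq 0 _
  have h5 := (ha.sub hb).add hc
  have e3 : (fun k : ℕ => bs k * u ^ k - bs (k + 1) * u ^ k + if k = 0 then (3 / 2 : ℝ) else 0) =
      fun k : ℕ => kc k * u ^ k := by
    funext k
    rcases Nat.eq_zero_or_pos k with h | h
    · subst h
      rw [kc_zero, bs_zero, bs_succ]
      norm_num
    · rw [if_neg (by omega), kc_eq h]
      ring
  have e4 : -√(1 - u) - 1 / (1 + √(1 - u)) + 3 / 2 = kap u := by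
    unfold kap
    have h6 : (1 + √(1 - u)) ≠ 0 := by positivity
    field_simp
    ring
  rw [e3, e4] at h5
  exact h5

/-! ### the error term -/

noncomputable def Sc (k : ℕ) : ℝ := WC.Ac k * (k : ℝ) ^ 3 * (1 / 4) ^ k

theorem Sc_nonneg (k : ℕ) : 0 ≤ Sc k :=
  mul_nonneg (mul_nonneg (Ac_nonneg k) (by positivity)) (by positivity)

theorem Sc_closed (k : ℕ) : Sc k = 3 * (k : ℝ) ^ 4 * ((k.centralBinom : ℝ) / 16 ^ k) := by
  unfold Sc WC.Ac
  rw [show (16 : ℝ) ^ k = 4 ^ k * 4 ^ k by rw [← mul_pow]; norm_num, one_div, inv_pow]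
  field_simp

theorem Sc_half {k : ℕ} (hk : 6 ≤ k) : 2 * Sc (k + 1) ≤ Sc k := by
  have h := cb_succ k
  have hk6 : (6 : ℝ) ≤ k := by exact_mod_cast hk
  have h3 : ((k + 1).centralBinom : ℝ) = 2 * (2 * k + 1) * k.centralBinom / (k + 1) := by
    rw [← h]; field_simp
  rw [Sc_closed, Sc_closed, h3, pow_succ (16 : ℝ) k]
  push_cast
  have e1 : 2 * (3 * ((k : ℝ) + 1) ^ 4 *
      (2 * (2 * k + 1) * (k.centralBinom : ℝ) / (k + 1) / (16 ^ k * 16))) =
      3 * (((k : ℝ) + 1) ^ 3 * (2 * k + 1) / 4) * ((k.centralBinom : ℝ) / 16 ^ k) := by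
    field_simp
    ring
  rw [e1]
  apply mul_le_mul_of_nonneg_right _ (by positivity)
  obtain ⟨x, hx⟩ : ∃ x : ℝ, (k : ℝ) = x + 6 := ⟨k - 6, by ring⟩
  have hx0 : 0 ≤ x := by linarith
  rw [hx]
  nlinarith [mul_nonneg hx0 hx0, mul_nonneg (mul_nonneg hx0 hx0) hx0,
    mul_nonneg (mul_nonneg hx0 hx0) (mul_nonneg hx0 hx0)]

theorem Sc_sum (n : ℕ) : ∑ k ∈ range n, Sc k ≤ 5 := by
  have key : ∀ n, 6 ≤ n → ∑ k ∈ range n, Sc k + 2 * Sc n ≤ 5 := by
    intro n hn
    induction n, hn using Nat.le_induction with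
    | base =>
      simp only [Finset.sum_range_succ, Finset.sum_range_zero, Sc_closed]
      simp only [show Nat.centralBinom 0 = 1 from rfl, show Nat.centralBinom 1 = 2 from rfl,
        show Nat.centralBinom 2 = 6 from rfl, show Nat.centralBinom 3 = 20 from rfl,
        show Nat.centralBinom 4 = 70 from rfl, show Nat.centralBinom 5 = 252 from rfl,
        show Nat.centralBinom 6 = 924 from rfl]
      norm_num
    | succ n hn ih =>
      rw [Finset.sum_range_succ]
      have := Sc_half (k := n) (by omega)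
      linarith
  rcases Nat.lt_or_ge n 6 with h | h
  · have h1 := key 6 le_rfl
    have h2 : ∑ k ∈ range n, Sc k ≤ ∑ k ∈ range 6, Sc k :=
      Finset.sum_le_sum_of_subset_of_nonneg (Finset.range_subset_range.2 h.le)
        (fun k _ _ => Sc_nonneg k)
    have h3 := Sc_nonneg 6
    linarith
  · have h1 := key n h
    have h3 := Sc_nonneg n
    linarith

/-! ### the mean number of clusters -/

theorem gM_partial {M n : ℕ} (hM : 1 ≤ M) (hn : M + 1 ≤ n) {u : ℝ} (h0 : 0 ≤ u) (h1 : u ≤ 1 / 4) :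
    |gM M u - M * ∑ k ∈ range n, kc k * u ^ k -
      5 / (16 * M) * ∑ k ∈ range n, WC.Ac k * u ^ k| ≤ 5 / (4 * (M : ℝ) ^ 3) := by
  have hM1 : (1 : ℝ) ≤ M := by exact_mod_cast hM
  have e1 : gM M u = ∑ k ∈ range n, Q M k * u ^ k := by
    unfold gM
    apply Finset.sum_subset (Finset.range_subset_range.2 hn)
    intro k _ hk
    rw [Finset.mem_range, not_lt] at hk
    rw [Q_big (by omega)]
    ring
  have e2 : gM M u - M * ∑ k ∈ range n, kc k * u ^ k -
      5 / (16 * M) * ∑ k ∈ range n, WC.Ac k * u ^ k =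
      ∑ k ∈ range n, (Q M k - M * kc k - 5 / (16 * M) * WC.Ac k) * u ^ k := by
    rw [e1, Finset.mul_sum, Finset.mul_sum, ← Finset.sum_sub_distrib, ← Finset.sum_sub_distrib]
    refine Finset.sum_congr rfl fun k _ => ?_
    ring
  rw [e2]
  calc |∑ k ∈ range n, (Q M k - M * kc k - 5 / (16 * M) * WC.Ac k) * u ^ k|
      ≤ ∑ k ∈ range n, |(Q M k - M * kc k - 5 / (16 * M) * WC.Ac k) * u ^ k| :=
        Finset.abs_sum_le_sum_abs _ _
    _ ≤ ∑ k ∈ range n, Sc k / (4 * (M : ℝ) ^ 3) := by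
        refine Finset.sum_le_sum fun k _ => ?_
        rcases Nat.eq_zero_or_pos k with h | h
        · subst h
          rw [Q_zero, kc_zero, Ac_zero]
          simp only [mul_zero, sub_zero, zero_mul, abs_zero]
          exact div_nonneg (Sc_nonneg 0) (by positivity)
        · rw [abs_mul, abs_of_nonneg (pow_nonneg h0 k)]
          have h2 := Q_asymp hM h
          have h3 : u ^ k ≤ (1 / 4) ^ k := pow_le_pow_left₀ h0 h1 k
          calc _ ≤ WC.Ac k * (k : ℝ) ^ 3 / (4 * (M : ℝ) ^ 3) * (1 / 4) ^ k :=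
                mul_le_mul h2 h3 (pow_nonneg h0 k)
                  (div_nonneg (mul_nonneg (Ac_nonneg k) (by positivity)) (by positivity))
            _ = _ := by unfold Sc; ring
    _ = (∑ k ∈ range n, Sc k) / (4 * (M : ℝ) ^ 3) := by rw [Finset.sum_div]
    _ ≤ _ := div_le_div_of_nonneg_right (Sc_sum n) (by positivity)

/-- **the mean number of clusters with its universal finite-size term** -/
theorem gM_asymp {M : ℕ} (hM : 1 ≤ M) {u : ℝ} (h0 : 0 ≤ u) (h1 : u ≤ 1 / 4) :
    |gM M u - M * kap u - 5 / (16 * M) * Flim u| ≤ 5 / (4 * (M : ℝ) ^ 3) := by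
  have t1 : Tendsto (fun n : ℕ => ∑ k ∈ range n, kc k * u ^ k) atTop (𝓝 (kap u)) :=
    (hasSum_kc h0 (by linarith)).tendsto_sum_nat
  have t2 : Tendsto (fun n : ℕ => ∑ k ∈ range n, WC.Ac k * u ^ k) atTop (𝓝 (Flim u)) :=
    (hasSum_Ac h0 (by linarith)).tendsto_sum_nat
  have t3 : Tendsto (fun n : ℕ => |gM M u - M * ∑ k ∈ range n, kc k * u ^ k -
      5 / (16 * M) * ∑ k ∈ range n, WC.Ac k * u ^ k|) atTop
      (𝓝 |gM M u - M * kap u - 5 / (16 * M) * Flim u|) :=
    (((tendsto_const_nhds).sub (t1.const_mul _)).sub (t2.const_mul _)).abs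
  exact le_of_tendsto t3 (Filter.eventually_atTop.2 ⟨M + 1, fun n hn => gM_partial hM hn h0 h1⟩)

end Pool.Agent.Helper21.CD
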