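import Pool.Graph.R_seed8.H731R6.Bc.P6
import Pool.Graph.R_seed8.H731R6.Bc.F1
import Pool.Agent.Helper21.WC.Val

/-!
# The class of a face of a pattern on an even number of strands, modulo the circumference
-/

namespace Pool.Agent.Helper21.CD

open Pool.Agent.H863R2.Cyl Pool.Agent.H863R2.Cyl.Sem1Aux Relation
open Pool.Agent.H988R2.Perc (Word)
open Pool.Agent.Helper21.EV Pool.Agent.Helper21.WC

variable {m : ℕ}

/-- the faces `a` and `b` of the pattern belong to the same cluster on the cylinder -/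
def Kc (m : ℕ) (w : Word) (a b : ℤ) : Prop := ∃ k : ℤ, Rw w a (b + k * (m + 1))

theorem Kc_refl (w : Word) (a : ℤ) : Kc m w a a := ⟨0, by
  rw [zero_mul, add_zero]; exact (Rw_equiv w).refl a⟩

theorem Kc_col {w : Word} {a b b' : ℤ} (h : col m b = col m b') : Kc m w a b ↔ Kc m w a b' := by
  obtain ⟨k, hk⟩ := col_eq_iff.1 h
  constructor
  · rintro ⟨l, hl⟩
    exact ⟨l + k, by rw [hk] at hl; rw [show b' + (l + k) * ((m : ℤ) + 1) = b' + k * (m + 1) + l * (m + 1) by ring]; exact hl⟩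
  · rintro ⟨l, hl⟩
    exact ⟨l - k, by rw [hk]; rw [show b' + k * ((m : ℤ) + 1) + (l - k) * (m + 1) = b' + l * (m + 1) by ring]; exact hl⟩

theorem Kc_par (hev : m % 2 = 1) (σ : Wd (m + 1)) {a b : ℤ} (h : Kc m σ.1 a b) :
    (a - b) % 2 = 0 := by
  obtain ⟨H, h1, -⟩ := exists_per hev σ
  obtain ⟨k, hk⟩ := h
  rw [Rw_iff h1] at hk
  have key : ∀ x y : ℤ, (H x - H y - (x - y)) % 2 = 0 := by
    have k1 : ∀ x : ℤ, (H x - H 0 - x) % 2 = 0 := by
      intro x
      induction x using Int.induction_on with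
      | zero => simp
      | succ i ih =>
        rw [h1]
        rcases sg_cases σ.1 (i : ℤ) with h | h <;> rw [h] <;> omega
      | pred i ih =>
        have h2 := h1 (-(i : ℤ) - 1)
        rw [sub_add_cancel] at h2
        rcases sg_cases σ.1 (-(i : ℤ) - 1) with h | h <;> rw [h] at h2 <;> omega
    intro x y
    have := k1 x
    have := k1 y
    omega
  have h3 := key a (b + k * (m + 1))
  rw [hk.1] at h3
  have h4 : (k * ((m : ℤ) + 1)) % 2 = 0 := by
    obtain ⟨r, hr⟩ : ∃ r : ℕ, m + 1 = 2 * r := ⟨(m + 1) / 2, by omega⟩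
    have : (m : ℤ) + 1 = 2 * r := by exact_mod_cast hr
    rw [this]
    rw [show k * (2 * (r : ℤ)) = 2 * (k * r) by ring]
    exact Int.mul_emod_right _ _
  omega

open Classical in
/-- the faces of the class of `a` -/
noncomputable def Ac (m : ℕ) (w : Word) (a : ℤ) : Finset (Fin (m + 1)) :=
  Finset.univ.filter (fun i : Fin (m + 1) => Kc m w a (i.val : ℤ))

open Classical in
/-- the squares to the left of the faces of the class of `a` -/
noncomputable def Bc (m : ℕ) (w : Word) (a : ℤ) : Finset (Fin (m + 1)) :=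
  Finset.univ.filter (fun i : Fin (m + 1) => Kc m w a ((i.val : ℤ) + 1))

theorem mem_Ac (w : Word) (a b : ℤ) : col m b ∈ Ac m w a ↔ Kc m w a b := by
  classical
  unfold Ac
  rw [Finset.mem_filter]
  simp only [Finset.mem_univ, true_and]
  exact Kc_col (col_self b)

theorem mem_Bc (w : Word) (a b : ℤ) : col m b ∈ Bc m w a ↔ Kc m w a (b + 1) := by
  classical
  unfold Bc
  rw [Finset.mem_filter]
  simp only [Finset.mem_univ, true_and]
  exact Kc_col (col_succ (col_self b) 1)

theorem card_Bc (w : Word) (a : ℤ) : (Bc m w a).card = (Ac m w a).card := by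
  refine Finset.card_nbij' (fun i => col m ((i.val : ℤ) + 1)) (fun i => col m ((i.val : ℤ) - 1))
    ?_ ?_ ?_ ?_
  · intro i hi
    have hi' : i ∈ Bc m w a := hi
    show col m ((i.val : ℤ) + 1) ∈ Ac m w a
    rw [mem_Ac]
    rw [← col_val i, mem_Bc] at hi'
    exact hi'
  · intro i hi
    have hi' : i ∈ Ac m w a := hi
    show col m ((i.val : ℤ) - 1) ∈ Bc m w a
    rw [mem_Bc, sub_add_cancel]
    rw [← col_val i, mem_Ac] at hi'
    exact hi'
  · intro i hi
    show col m (((col m ((i.val : ℤ) + 1)).val : ℤ) - 1) = i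
    rw [sub_eq_add_neg, col_succ (col_self ((i.val : ℤ) + 1)) (-1), add_neg_cancel_right, col_val]
  · intro i hi
    show col m (((col m ((i.val : ℤ) - 1)).val : ℤ) + 1) = i
    rw [col_succ (col_self ((i.val : ℤ) - 1)) 1, sub_add_cancel, col_val]

theorem disj_ABc (hev : m % 2 = 1) (σ : Wd (m + 1)) (a : ℤ) :
    Disjoint (Ac m σ.1 a) (Bc m σ.1 a) := by
  rw [Finset.disjoint_left]
  intro i h1 h2
  rw [← col_val i, mem_Ac] at h1
  rw [← col_val i, mem_Bc] at h2
  have := Kc_par hev σ h1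
  have := Kc_par hev σ h2
  omega

/-- all faces of the class of `a` are closed by the row `c` -/
def Cz (m : ℕ) (w : Word) (a : ℤ) (c : Fin (m + 1) → Bool) : Prop :=
  ∀ b : ℤ, Kc m w a b → cl c b = true ∧ cl c (b - 1) = false

theorem Cz_iff (w : Word) (a : ℤ) (c : Fin (m + 1) → Bool) : Cz m w a c ↔
    (∀ i ∈ Ac m w a, c i = true) ∧ (∀ i ∈ Bc m w a, c i = false) := by
  constructor
  · intro h
    constructor
    · intro i hi
      rw [← col_val i, mem_Ac] at hi
      have := (h _ hi).1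
      rwa [cl_col, col_val] at this
    · intro i hi
      rw [← col_val i, mem_Bc] at hi
      have := (h _ hi).2
      rwa [add_sub_cancel_right, cl_col, col_val] at this
  · rintro ⟨h1, h2⟩ b hb
    constructor
    · rw [cl_col]
      exact h1 _ ((mem_Ac w a b).2 hb)
    · rw [cl_col]
      exact h2 _ ((mem_Bc w a (b - 1)).2 (by rwa [sub_add_cancel]))

open Classical in
/-- the total weight of the rows which close the class of `a` -/
theorem sum_Cz (hev : m % 2 = 1) (σ : Wd (m + 1)) (a : ℤ) (q : ℝ) :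
    ∑ c : Fin (m + 1) → Bool, (∏ j, (if c j = true then q else 1 - q)) *
      (if Cz m σ.1 a c then 1 else 0) = (q * (1 - q)) ^ (Ac m σ.1 a).card := by
  have h := sum_prescribed (Ac m σ.1 a) (Bc m σ.1 a) (disj_ABc hev σ a) q (1 - q)
  rw [card_Bc, add_sub_cancel, one_pow, mul_one] at h
  simp only [Cz_iff]
  rw [mul_pow]
  exact h

/-- the number of the faces of the class of `0` is the number of the outermost arcs of the
projection -/
theorem ret_card {n : ℕ} (σ : Wd (2 * n + 1 + 1)) :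
    Pool.Agent.H980R2.Cont.ret (H731B.proj σ.1) = (Ac (2 * n + 1) σ.1 0).card := by
  classical
  have hl : σ.1.length = 2 * n + 1 + 1 := σ.2.1
  rw [H731B.ret_proj σ.2.2 (by rw [hl]; exact ⟨n + 1, by ring⟩) (by
    intro h; rw [h] at hl; simp at hl)]
  rw [hl]
  unfold Ac
  refine Finset.card_bij (fun b _ => col (2 * n + 1) (b : ℤ)) ?_ ?_ ?_
  · intro b hb
    rw [Finset.mem_filter, Finset.mem_range] at hb
    rw [Finset.mem_filter]
    refine ⟨Finset.mem_univ _, (Kc_col (col_self (b : ℤ))).2 ?_⟩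
    obtain ⟨k, hk⟩ := hb.2
    refine ⟨k, ?_⟩
    rw [show (((2 * n + 1 : ℕ) : ℤ) + 1) = ((2 * n + 1 + 1 : ℕ) : ℤ) by push_cast; ring]
    exact hk
  · intro b hb b' hb' h
    rw [Finset.mem_filter, Finset.mem_range] at hb hb'
    rw [col_nat, col_nat] at h
    have h1 := congrArg Fin.val h
    have h2 : b % (2 * n + 1 + 1) = b' % (2 * n + 1 + 1) := h1
    rw [Nat.mod_eq_of_lt hb.1, Nat.mod_eq_of_lt hb'.1] at h2
    exact h2
  · intro i hi
    rw [Finset.mem_filter] at hi
    refine ⟨i.val, ?_, col_val i⟩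
    rw [Finset.mem_filter, Finset.mem_range]
    refine ⟨i.2, ?_⟩
    obtain ⟨k, hk⟩ := hi.2
    refine ⟨k, ?_⟩
    rw [show ((2 * n + 1 + 1 : ℕ) : ℤ) = (((2 * n + 1 : ℕ) : ℤ) + 1) by push_cast; ring]
    exact hk

/-- the stationary law is the normalised ground state -/
theorem stat_eq {Ψ : List ℂ → VW} (hΨ : Fam (Pool.Agent.H988R2.Perc.q ^ 2) Ψ) (m : ℕ)
    (μ : Wd (m + 1) → ℝ) (h1 : ∑ σ, μ σ = 1)
    (h2 : ∀ σ, ∑ c : Fin (m + 1) → Bool, push (Tc m c) μ σ = 2 ^ (m + 1) * μ σ)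
    (σ : Wd (m + 1)) : (μ σ : ℂ) = Ψ (List.replicate (m + 1) 1) σ.1 /
      H731B.ZZ Ψ (List.replicate (m + 1) 1) := by
  set P := Ψ (List.replicate (m + 1) 1) with hP
  set Z := H731B.ZZ Ψ (List.replicate (m + 1) 1) with hZ
  have hmem : P ∈ VN (m + 1) := by
    have := hΨ.mem (List.replicate (m + 1) 1)
    rwa [List.length_replicate] at this
  have hZsum : Z = ∑ σ : Wd (m + 1), P σ.1 := by
    have h := H731B.P1.sum_eq (fun (w : Word) (a : ℂ) => a * 1) (fun w => zero_mul _) hmem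
    simp only [mul_one] at h
    rw [← h, hZ]
    unfold H731B.ZZ H731B.cl
    simp only [mul_one]
    rfl
  have hZtot : Z = tot P := by
    have h := H731B.P1.sum_eq (fun (w : Word) (a : ℂ) => a • (1 : ℂ)) (fun w => zero_smul _ _) hmem
    rw [hZsum]
    unfold tot
    rw [Finsupp.linearCombination_apply, h]
    simp
  have hZ0 : Z ≠ 0 := by
    rw [hZtot]
    exact hΨ.tot_ne (m + 1)
  have hu := markov_unique m (fun σ => (μ σ : ℂ) - P σ.1 / Z) ?_ ?_
  · have := congrFun hu σ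
    simpa [sub_eq_zero] using this
  · intro τ
    have e1 := congrArg (fun x : ℝ => (x : ℂ)) (h2 τ)
    have e2 := hΨ.stat m τ
    simp only [push] at e1 e2 ⊢
    push_cast at e1
    simp only [apply_ite (fun x : ℝ => (x : ℂ)), Complex.ofReal_zero] at e1
    have e3 : ∀ c : Fin (m + 1) → Bool,
        (∑ x, if Tc m c x = τ then ((μ x : ℂ) - P x.1 / Z) else 0) =
        (∑ x, if Tc m c x = τ then (μ x : ℂ) else 0) -
        (∑ x, if Tc m c x = τ then P x.1 else 0) / Z := by
      intro c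
      rw [Finset.sum_div, ← Finset.sum_sub_distrib]
      refine Finset.sum_congr rfl fun x _ => ?_
      split_ifs
      · rfl
      · simp
    rw [Finset.sum_congr rfl fun c _ => e3 c, Finset.sum_sub_distrib, ← Finset.sum_div, e1, e2]
    ring
  · have e : ∑ σ, (μ σ : ℂ) = 1 := by
      rw [← Complex.ofReal_sum, h1, Complex.ofReal_one]
    rw [Finset.sum_sub_distrib, e, ← Finset.sum_div, ← hZsum, div_self hZ0, sub_self]

open Classical in
/-- **the law of the number of the faces of the class of `0`** -/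
theorem card_tail {n : ℕ} (μ : Wd (2 * n + 1 + 1) → ℝ) (h1 : ∑ σ, μ σ = 1)
    (h2 : ∀ σ, ∑ c : Fin (2 * n + 1 + 1) → Bool, push (Tc (2 * n + 1) c) μ σ =
      2 ^ (2 * n + 1 + 1) * μ σ) (k : ℕ) (hk : k ≤ n + 1) :
    ∑ σ, μ σ * (if k ≤ (Ac (2 * n + 1) σ.1 0).card then (1 : ℝ) else 0) =
      H731B.tl (n + 1) k := by
  obtain ⟨Ψ, hΨ⟩ := exists_Fam (Pool.Agent.H988R2.Perc.q ^ 2) H731B.P6.q4
  have h3 := H731B.P6.lim_eq' hΨ (n := n + 1) (by omega) hk (2 * n + 1) (by ring)
  have h4 : ∀ σ : Wd (2 * n + 1 + 1), (if k ≤ Pool.Agent.H980R2.Cont.ret (H731B.proj σ.1) then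
      (Ψ (List.replicate (2 * n + 1 + 1) 1)) σ.1 / H731B.ZZ Ψ (List.replicate (2 * n + 1 + 1) 1)
      else 0) = ((μ σ * (if k ≤ (Ac (2 * n + 1) σ.1 0).card then (1 : ℝ) else 0) : ℝ) : ℂ) := by
    intro σ
    rw [ret_card]
    split_ifs
    · rw [← stat_eq hΨ _ μ h1 h2 σ]; simp
    · simp
  rw [Finset.sum_congr rfl fun σ _ => h4 σ, ← Complex.ofReal_sum] at h3
  exact_mod_cast h3

end Pool.Agent.Helper21.CD
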