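import Pool.Agent.Helper21.CD.Half

/-!
# The law of the trace of a cluster at its highest level, and the mean number of clusters
-/

namespace Pool.Agent.Helper21.CD

open MeasureTheory ProbabilityTheory Filter Topology Relation
open Pool.Agent.H863R2.Cyl
open Pool.Agent.H988R2.Perc (Word)
open Pool.Agent.Helper21.ID (rw1)
open Pool.Agent.Helper21.EV Pool.Agent.Helper21.WC

variable {m : ℕ}

/-- the highest level of the cluster of `(a,t)` is `t`, and it has exactly `k` sites at this level -/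
def Ev (m : ℕ) (a t : ℤ) (k : ℕ) : Set (Fin (m + 1) × ℤ → Bool) :=
  {ω | TopC ω a t ∧ (Tr ω a t).ncard = k}

theorem measurableSet_topC (a t : ℤ) :
    MeasurableSet {ω : Fin (m + 1) × ℤ → Bool | TopC ω a t} := by
  have e : {ω : Fin (m + 1) × ℤ → Bool | TopC ω a t} =
      ⋂ b : ℤ × ℤ, {ω | EqvGen (Link ω) (a, t) b → b.2 ≤ t} := by
    ext ω
    simp only [Set.mem_iInter]
    exact Iff.rfl
  rw [e]
  refine MeasurableSet.iInter fun b => ?_
  by_cases hb : b.2 ≤ t
  · have : {ω : Fin (m + 1) × ℤ → Bool | EqvGen (Link ω) (a, t) b → b.2 ≤ t} = Set.univ := by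
      ext ω
      simp [hb]
    rw [this]
    exact MeasurableSet.univ
  · have : {ω : Fin (m + 1) × ℤ → Bool | EqvGen (Link ω) (a, t) b → b.2 ≤ t} =
        {ω | EqvGen (Link ω) (a, t) b}ᶜ := by
      ext ω
      simp [hb]
    rw [this]
    exact (measurableSet_eqvGen (fun ω : Fin (m + 1) × ℤ → Bool => Link ω)
      measurableSet_link _ _).compl

theorem measurableSet_mem_Tr (a t : ℤ) (i : Fin (m + 1)) :
    MeasurableSet {ω : Fin (m + 1) × ℤ → Bool | i ∈ Tr ω a t} := by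
  have e : {ω : Fin (m + 1) × ℤ → Bool | i ∈ Tr ω a t} =
      ⋃ k : ℤ, {ω | EqvGen (Link ω) (a, t) ((i.val : ℤ) + k * (m + 1), t)} := by
    ext ω
    rw [Set.mem_iUnion]
    exact mem_Tr
  rw [e]
  exact MeasurableSet.iUnion fun k => measurableSet_eqvGen
    (fun ω : Fin (m + 1) × ℤ → Bool => Link ω) measurableSet_link _ _

theorem measurableSet_card_Tr (a t : ℤ) (k : ℕ) :
    MeasurableSet {ω : Fin (m + 1) × ℤ → Bool | (Tr ω a t).ncard = k} := by
  classical
  have e : {ω : Fin (m + 1) × ℤ → Bool | (Tr ω a t).ncard = k} =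
      ⋃ A : Finset (Fin (m + 1)), ⋂ j : Fin (m + 1),
        ({_ω | A.card = k} ∩ {ω | j ∈ A ↔ j ∈ Tr ω a t}) := by
    ext ω
    simp only [Set.mem_iUnion, Set.mem_iInter, Set.mem_inter_iff]
    constructor
    · intro h
      refine ⟨Finset.univ.filter (fun j : Fin (m + 1) => j ∈ Tr ω a t), fun j => ⟨?_, ?_⟩⟩
      · show (Finset.univ.filter (fun j : Fin (m + 1) => j ∈ Tr ω a t)).card = k
        rw [← Set.ncard_coe_finset, Finset.coe_filter]
        simp only [Finset.mem_univ, true_and]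
        exact h
      · show j ∈ Finset.univ.filter (fun j : Fin (m + 1) => j ∈ Tr ω a t) ↔ _
        simp
    · rintro ⟨A, hA⟩
      show Set.ncard (Tr ω a t) = k
      have : Tr ω a t = (A : Set (Fin (m + 1))) := by
        ext j
        exact (hA j).2.symm
      rw [this, Set.ncard_coe_finset]
      exact (hA 0).1
  rw [e]
  refine MeasurableSet.iUnion fun A => MeasurableSet.iInter fun j => (MeasurableSet.const _).inter ?_
  by_cases hj : j ∈ A
  · have : {ω : Fin (m + 1) × ℤ → Bool | j ∈ A ↔ j ∈ Tr ω a t} = {ω | j ∈ Tr ω a t} := by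
      ext ω
      simp [hj]
    rw [this]
    exact measurableSet_mem_Tr a t j
  · have : {ω : Fin (m + 1) × ℤ → Bool | j ∈ A ↔ j ∈ Tr ω a t} = {ω | j ∈ Tr ω a t}ᶜ := by
      ext ω
      simp [hj]
    rw [this]
    exact (measurableSet_mem_Tr a t j).compl

theorem measurableSet_Ev (a t : ℤ) (k : ℕ) : MeasurableSet (Ev m a t k) :=
  (measurableSet_topC a t).inter (measurableSet_card_Tr a t k)

/-! ### the law -/

/-- the probability that the cluster of a boundary site of the half cylinder has exactly `k` boundary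
sites (`2M` boundary sites, primal and dual) -/
noncomputable def ql (M k : ℕ) : ℝ := H731B.tl M k - H731B.tl M (k + 1)

open Classical in
theorem card_tail' {n : ℕ} (μ : Wd (2 * n + 1 + 1) → ℝ) (h1 : ∑ σ, μ σ = 1)
    (h2 : ∀ σ, ∑ c : Fin (2 * n + 1 + 1) → Bool, push (Tc (2 * n + 1) c) μ σ =
      2 ^ (2 * n + 1 + 1) * μ σ) (k : ℕ) :
    ∑ σ, μ σ * (if k ≤ (Ac (2 * n + 1) σ.1 0).card then (1 : ℝ) else 0) =
      H731B.tl (n + 1) k := by
  rcases Nat.lt_or_ge (n + 1) k with h | h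
  · rw [H731B.tl_gt h]
    refine Finset.sum_eq_zero fun σ _ => ?_
    rw [if_neg, mul_zero]
    have h3 := Finset.card_union_of_disjoint (disj_ABc (by omega) σ 0)
    rw [card_Bc] at h3
    have h4 := Finset.card_le_univ (Ac (2 * n + 1) σ.1 0 ∪ Bc (2 * n + 1) σ.1 0)
    rw [Fintype.card_fin, h3] at h4
    omega
  · exact card_tail μ h1 h2 k h

open Classical in
theorem card_law {n : ℕ} (μ : Wd (2 * n + 1 + 1) → ℝ) (h1 : ∑ σ, μ σ = 1)
    (h2 : ∀ σ, ∑ c : Fin (2 * n + 1 + 1) → Bool, push (Tc (2 * n + 1) c) μ σ =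
      2 ^ (2 * n + 1 + 1) * μ σ) (k : ℕ) :
    ∑ σ, μ σ * (if (Ac (2 * n + 1) σ.1 0).card = k then (1 : ℝ) else 0) = ql (n + 1) k := by
  unfold ql
  rw [← card_tail' μ h1 h2 k, ← card_tail' μ h1 h2 (k + 1), ← Finset.sum_sub_distrib]
  refine Finset.sum_congr rfl fun σ _ => ?_
  rw [← mul_sub]
  congr 1
  by_cases h : (Ac (2 * n + 1) σ.1 0).card = k
  · rw [if_pos h, if_pos (by omega), if_neg (by omega)]
    ring
  · rw [if_neg h]
    by_cases h' : k ≤ (Ac (2 * n + 1) σ.1 0).card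
    · rw [if_pos h', if_pos (by omega)]
      ring
    · rw [if_neg h', if_neg (by omega)]
      ring

theorem Ev_zero {n : ℕ} {ε : ℝ} {p : ℤ → unitInterval} (hp : Ell ε p) (t : ℤ) (k : ℕ) :
    (coins (2 * n + 1) p).real (Ev (2 * n + 1) 0 t k) =
      ((p t : ℝ) * (1 - p t)) ^ k * ql (n + 1) k := by
  classical
  obtain ⟨μ, m0, m1, m2, -, -⟩ := markov_exists (2 * n + 1)
  have h := value_gen hp t μ m0 m1 m2 (Ev (2 * n + 1) 0 t k) (measurableSet_Ev 0 t k)
    (fun σ c => if (Ac (2 * n + 1) σ.1 0).card = k ∧ Cz (2 * n + 1) σ.1 0 c then 1 else 0)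
    (fun σ _ => by split_ifs <;> norm_num) (fun σ _ => by split_ifs <;> norm_num)
    (fun ω M s hs hl σ => by
      have hc := topC_pat (a := 0) hs hl σ
      have hd := Tr_pat (a := 0) hs hl σ
      constructor
      · rintro ⟨h1, h2⟩
        rw [if_pos ⟨by rw [← hd h1, h2], hc.1 h1⟩]
      · intro h
        rw [if_neg]
        rintro ⟨h1, h2⟩
        have h3 := hc.2 h2
        exact h ⟨h3, by rw [hd h3, h1]⟩)
  rw [h]
  have e1 : ∀ c : Fin (2 * n + 1 + 1) → Bool, rw1 (p t : ℝ) c *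
      ∑ σ, μ σ * (if (Ac (2 * n + 1) σ.1 0).card = k ∧ Cz (2 * n + 1) σ.1 0 c then (1 : ℝ) else 0) =
      ∑ σ, μ σ * ((if (Ac (2 * n + 1) σ.1 0).card = k then (1 : ℝ) else 0) *
        (rw1 (p t : ℝ) c * (if Cz (2 * n + 1) σ.1 0 c then (1 : ℝ) else 0))) := by
    intro c
    rw [Finset.mul_sum]
    refine Finset.sum_congr rfl fun σ _ => ?_
    by_cases h1 : (Ac (2 * n + 1) σ.1 0).card = k
    · by_cases h2 : Cz (2 * n + 1) σ.1 0 c
      · rw [if_pos ⟨h1, h2⟩, if_pos h1, if_pos h2]; ring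
      · rw [if_neg (fun h => h2 h.2), if_neg h2]; ring
    · rw [if_neg (fun h => h1 h.1), if_neg h1]; ring
  simp only [e1]
  rw [Finset.sum_comm]
  have e2 : ∀ σ : Wd (2 * n + 1 + 1), ∑ c : Fin (2 * n + 1 + 1) → Bool,
      μ σ * ((if (Ac (2 * n + 1) σ.1 0).card = k then (1 : ℝ) else 0) *
        (rw1 (p t : ℝ) c * (if Cz (2 * n + 1) σ.1 0 c then (1 : ℝ) else 0))) =
      ((p t : ℝ) * (1 - p t)) ^ k *
        (μ σ * (if (Ac (2 * n + 1) σ.1 0).card = k then (1 : ℝ) else 0)) := by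
    intro σ
    rw [← Finset.mul_sum, ← Finset.mul_sum]
    have h3 := sum_Cz (m := 2 * n + 1) (by omega) σ 0 (p t : ℝ)
    have h4 : ∑ c : Fin (2 * n + 1 + 1) → Bool, rw1 (p t : ℝ) c *
        (if Cz (2 * n + 1) σ.1 0 c then (1 : ℝ) else 0) =
        ((p t : ℝ) * (1 - p t)) ^ (Ac (2 * n + 1) σ.1 0).card := h3
    rw [h4]
    by_cases h5 : (Ac (2 * n + 1) σ.1 0).card = k
    · rw [if_pos h5, h5]; ring
    · rw [if_neg h5]; ring
  simp only [e2]
  rw [← Finset.mul_sum, card_law μ m1 m2 k]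

/-! ### rotation -/

theorem topC_rot (ω : Fin (m + 1) × ℤ → Bool) (k a t : ℤ) :
    TopC (fun z => ω (rotE m k z)) a t ↔ TopC ω (a + k) t := by
  unfold TopC
  constructor
  · rintro h ⟨b, s⟩ hb
    have h1 := h (b - k, s)
    rw [eqv_rot] at h1
    simp only [sub_add_cancel] at h1
    exact h1 hb
  · rintro h ⟨b, s⟩ hb
    rw [eqv_rot] at hb
    exact h (b + k, s) hb

theorem Tr_rot (ω : Fin (m + 1) × ℤ → Bool) (k a t : ℤ) :
    (Tr (fun z => ω (rotE m k z)) a t).ncard = (Tr ω (a + k) t).ncard := by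
  refine Set.ncard_congr (fun i _ => col m ((i.val : ℤ) + k)) ?_ ?_ ?_
  · intro i hi
    rw [mem_Tr] at hi
    obtain ⟨l, hl⟩ := hi
    rw [eqv_rot] at hl
    show (col m ((i.val : ℤ) + k), t) ∈ cluster ω (col m (a + k), t)
    rw [mem_cluster]
    refine ⟨l, ?_⟩
    rw [show (i.val : ℤ) + k + l * (m + 1) = (i.val : ℤ) + l * (m + 1) + k by ring]
    exact hl
  · intro i j _ _ h
    have h1 := col_succ h (-k)
    rw [add_neg_cancel_right, add_neg_cancel_right, col_val, col_val] at h1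
    exact h1
  · intro j hj
    refine ⟨col m ((j.val : ℤ) - k), ?_, ?_⟩
    · show (col m ((j.val : ℤ) - k), t) ∈ cluster (fun z => ω (rotE m k z)) (col m a, t)
      rw [mem_cluster]
      rw [mem_Tr] at hj
      obtain ⟨l, hl⟩ := hj
      refine ⟨l, ?_⟩
      rw [eqv_rot]
      simp only
      rw [show (j.val : ℤ) - k + l * (m + 1) + k = (j.val : ℤ) + l * (m + 1) by ring]
      exact hl
    · show col m (((col m ((j.val : ℤ) - k)).val : ℤ) + k) = j
      rw [col_succ (col_self ((j.val : ℤ) - k)) k, sub_add_cancel, col_val]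

/-- **the joint law of the highest level is `t` and of the number of sites at this level** -/
theorem Ev_law {n : ℕ} {ε : ℝ} {p : ℤ → unitInterval} (hp : Ell ε p) (a t : ℤ) (k : ℕ) :
    (coins (2 * n + 1) p).real (Ev (2 * n + 1) a t k) =
      ((p t : ℝ) * (1 - p t)) ^ k * ql (n + 1) k := by
  rw [← Ev_zero hp t k, ← real_rot p a (measurableSet_Ev 0 t k)]
  congr 1
  ext ω
  show _ ↔ TopC (fun z => ω (rotE (2 * n + 1) a z)) 0 t ∧
    (Tr (fun z => ω (rotE (2 * n + 1) a z)) 0 t).ncard = k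
  rw [topC_rot, Tr_rot, zero_add]
  exact Iff.rfl

end Pool.Agent.Helper21.CD
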